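import Pool.Agent.X219.SE.NonIso
import Pool.Agent.X219.Sinf.Code

/-!
Nonclassification of the skew products by countable structures.
-/

set_option autoImplicit false

open Filter Topology Set MeasureTheory Function
open scoped Manifold ContDiff

namespace Pool.Agent.X219.SE

attribute [local instance] prob_TT chs isManifold_MM

open Pool.Agent.H468R2.MA (RS Iso Hm)

theorem exists_pair {K : Set (ℕ → ℝ)} (hC : K ∈ residual (ℕ → ℝ)) :
    ∃ x ∈ K, ∃ y ∈ K, ∀ N, (x, y) ∈ TC.Wn (Real.pi / 2) N := by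
  have h1 : (Prod.fst : (ℕ → ℝ) × (ℕ → ℝ) → (ℕ → ℝ)) ⁻¹' K ∈ residual ((ℕ → ℝ) × (ℕ → ℝ)) :=
    tendsto_residual_of_isOpenMap continuous_fst isOpenMap_fst hC
  have h2 : (Prod.snd : (ℕ → ℝ) × (ℕ → ℝ) → (ℕ → ℝ)) ⁻¹' K ∈ residual ((ℕ → ℝ) × (ℕ → ℝ)) :=
    tendsto_residual_of_isOpenMap continuous_snd isOpenMap_snd hC
  have h3 : (⋂ N, TC.Wn (Real.pi / 2) N) ∈ residual ((ℕ → ℝ) × (ℕ → ℝ)) :=
    countable_iInter_mem.2 fun N => residual_of_dense_open (TC.open_Wn _ N) (TC.dense_Wn _ N)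
  have h4 := dense_of_mem_residual (inter_mem (inter_mem h1 h2) h3)
  obtain ⟨p, ⟨⟨hp1, hp2⟩, hp3⟩⟩ := h4.nonempty
  exact ⟨p.1, hp1, p.2, hp2, fun N => Set.mem_iInter.1 hp3 N⟩

theorem connected_TT : ConnectedSpace TT := by
  have h : Function.Surjective (fun x : ℝ => (x : TT)) := QuotientAddGroup.mk_surjective
  exact h.connectedSpace (AddCircle.continuous_mk' 1)

attribute [local instance] connected_TT

/-- the space of smooth ergodic volume preserving diffeomorphisms of the torus -/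
abbrev SEs : Type := {T : Diffeomorph (𝓡 2) (𝓡 2) MM MM ∞ //
  MeasurePreserving (⇑T) (volume : Measure MM) volume ∧ Ergodic (⇑T) (volume : Measure MM)}

/-- the family -/
noncomputable def fam (s : ℕ → ℝ) : SEs := ⟨Td s, mp_Tm s, ergodic_Tm s⟩

theorem measurable_fam : @Measurable (ℕ → ℝ) SEs _
    (MeasurableSpace.comap (fun T : SEs => (⇑T.1 : MM → MM)) inferInstance) fam := by
  rw [measurable_comap_iff]
  rw [measurable_pi_iff]
  intro p
  have h : Continuous fun s : ℕ → ℝ => Tm s p := by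
    unfold Tm sk
    exact continuous_const.prodMk (continuous_const.add ((AddCircle.continuous_mk' 1).comp
      (continuous_S_s Sm_α p.1)))
  exact h.measurable

/-- Measure isomorphism of the members of the family is not classified by countable binary
relations. -/
theorem main (f : SEs → (ℕ → ℕ → Bool))
    (hf : @Measurable SEs (ℕ → ℕ → Bool)
      (MeasurableSpace.comap (fun T : SEs => (⇑T.1 : MM → MM)) inferInstance) inferInstance f)
    (hiff : ∀ S T : SEs, (∃ φ ψ : MM → MM, MeasurePreserving φ volume volume ∧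
        MeasurePreserving ψ volume volume ∧ ψ ∘ φ =ᵐ[volume] id ∧ φ ∘ ψ =ᵐ[volume] id ∧
          φ ∘ (⇑S.1) =ᵐ[volume] (⇑T.1) ∘ φ) ↔
      (∃ σ : Equiv.Perm ℕ, ∀ i j : ℕ, f S i j = f T (σ i) (σ j))) : False := by
  set R : (ℕ → ℝ) → RS Unit (fun _ => 2) := fun s _ a => f (fam s) (a 0) (a 1) = true with hR
  have hm : Measurable fun s => f (fam s) := hf.comp measurable_fam
  have hHm : Hm R :=
    { meas := by
        intro r a
        have h1 : Measurable fun s => f (fam s) (a 0) (a 1) :=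
          (measurable_pi_apply (a 1)).comp ((measurable_pi_apply (a 0)).comp hm)
        exact h1 (measurableSet_singleton true)
      inv := by
        intro s t hst
        obtain ⟨φ, ψ, h1, h2, h3, h4, h5⟩ := iso_close hst
        obtain ⟨σ, hσ⟩ := (hiff (fam s) (fam t)).1 ⟨φ, ψ, h1, h2, ae_of_all _ h3,
          ae_of_all _ h4, ae_of_all _ h5⟩
        refine ⟨σ, fun _ a => ?_⟩
        show f (fam t) (σ (a 0)) (σ (a 1)) = true ↔ f (fam s) (a 0) (a 1) = true
        rw [hσ] }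
  obtain ⟨K, hK, hKK⟩ := H468R2.MA.t_T_ERG
    (H468R2.MA.t_T_C H468R2.MA.t_T_SC (H468R2.MA.t_T_LOC H468R2.MA.t_T_SC
      (H468R2.MA.t_T_LOC1 H468R2.MA.t_T_SC))) H468R2.MA.t_T_CH _ _ _ hHm
  obtain ⟨x, hx, y, hy, hxy⟩ := exists_pair hK
  obtain ⟨π, hπ⟩ := hKK x hx y hy
  obtain ⟨φ, ψ, h1, -, -, -, h5⟩ := (hiff (fam x) (fam y)).2 ⟨π, fun i j => by
    have h := hπ () ![i, j]
    have h' : f (fam y) (π i) (π j) = true ↔ f (fam x) i j = true := h
    exact (Bool.eq_iff_iff.2 h').symm⟩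
  exact not_iso hxy h1 h5

end Pool.Agent.X219.SE
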