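import Pool.Agent.X219.SE.Low

/-!
Ergodicity of the skew products.
-/

set_option autoImplicit false

open Filter Topology Set MeasureTheory Function
open scoped Manifold ContDiff

namespace Pool.Agent.X219.SE

attribute [local instance] prob_TT

theorem vol_haar : (volume : Measure TT) = AddCircle.haarAddCircle := by
  rw [AddCircle.volume_eq_smul_haarAddCircle, ENNReal.ofReal_one, one_smul]

/-- Fourier coefficients -/
noncomputable def fc (u : TT → ℂ) (b : ℤ) : ℂ := ∫ y, fourier (-b) y * u y

theorem fc_eq (u : TT → ℂ) (b : ℤ) : fc u b = fourierCoeff u b := by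
  unfold fc fourierCoeff
  rw [← vol_haar]
  rfl

theorem fourier_add_arg (b : ℤ) (x y : TT) : fourier b (x + y) = fourier b x * fourier b y := by
  rw [fourier_apply, fourier_apply, fourier_apply, zsmul_add, AddCircle.toCircle_add,
    Circle.coe_mul]

theorem fourier_eq_ex (b : ℤ) (t : ℝ) : fourier b (t : TT) = ex ((b * t : ℝ) : TT) := by
  rw [fourier_apply]
  unfold ex
  rw [← AddCircle.coe_zsmul, zsmul_eq_mul]

theorem norm_fourier (b : ℤ) (x : TT) : ‖fourier b x‖ = 1 := by
  rw [fourier_apply]
  exact Circle.norm_coe _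

theorem fc_shift (u : TT → ℂ) (b : ℤ) (c : TT) :
    fc (fun y => u (y + c)) b = fourier b c * fc u b := by
  unfold fc
  have h1 : ∫ y, fourier (-b) y * u (y + c) =
      ∫ y, (fun z => fourier (-b) (z - c) * u z) (y + c) := by
    congr 1
    funext y
    show _ = fourier (-b) (y + c - c) * u (y + c)
    rw [add_sub_cancel_right]
  rw [h1, integral_add_right_eq_self (fun z => fourier (-b) (z - c) * u z) c,
    ← integral_const_mul]
  congr 1
  funext z
  have h2 : fourier (-b) (z - c) = fourier b c * fourier (-b) z := by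
    have h3 : fourier (-b) z = fourier (-b) (z - c) * fourier (-b) c := by
      rw [← fourier_add_arg, sub_add_cancel]
    have h4 : fourier b c * fourier (-b) c = 1 := by
      rw [← fourier_add, add_neg_cancel, fourier_zero]
    rw [h3]
    calc fourier (-b) (z - c) = fourier (-b) (z - c) * 1 := (mul_one _).symm
      _ = fourier (-b) (z - c) * (fourier b c * fourier (-b) c) := by rw [h4]
      _ = _ := by ring
  show fourier (-b) (z - c) * u z = fourier b c * (fourier (-b) z * u z)
  rw [h2]
  ring

/-- uniqueness of Fourier coefficients -/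
theorem eq_const {u : TT → ℂ} (hu : MemLp u 2 (volume : Measure TT)) {c : ℂ}
    (h0 : fc u 0 = c) (hb : ∀ b : ℤ, b ≠ 0 → fc u b = 0) : u =ᵐ[volume] fun _ => c := by
  have hv : MemLp (fun y => u y - c) 2 (volume : Measure TT) := hu.sub (memLp_const c)
  have hui : Integrable u := hu.integrable (by norm_num)
  have h1 : ∀ b : ℤ, fc (fun y => u y - c) b = 0 := by
    intro b
    have e1 : fc (fun y => u y - c) b = fc u b - fc (fun _ => c) b := by
      unfold fc
      rw [← integral_sub]
      · congr 1
        funext y
        ring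
      · exact hui.bdd_mul (c := 1) (ContinuousMap.continuous _).aestronglyMeasurable
          (ae_of_all _ fun y => (norm_fourier _ y).le)
      · exact (integrable_const c).bdd_mul (c := 1) (ContinuousMap.continuous _).aestronglyMeasurable
          (ae_of_all _ fun y => (norm_fourier _ y).le)
    have e2 : fc (fun _ => c) b = if b = 0 then c else 0 := by
      unfold fc
      rw [integral_mul_const]
      by_cases hb0 : b = 0
      · subst hb0
        simp
      · rw [if_neg hb0]
        have e3 : (∫ y : TT, fourier (-b) y) = 0 := by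
          have e4 := integral_eq_zero_of_add_right_eq_neg (μ := (volume : Measure TT))
            (f := fun y : TT => fourier (-b) y) (g := ((1 / 2 / (-b : ℝ) : ℝ) : TT)) (fun x => by
              rw [fourier_add_arg, fourier_eq_ex]
              have e5 : (((-b : ℤ) : ℝ) * (1 / 2 / (-b : ℝ))) = 1 / 2 := by
                have : (b : ℝ) ≠ 0 := by exact_mod_cast hb0
                push_cast
                field_simp
              rw [e5, ex_half]
              ring)
          exact e4
        rw [e3, zero_mul]
    rw [e1, e2]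
    by_cases hb0 : b = 0
    · subst hb0
      rw [h0, if_pos rfl, sub_self]
    · rw [hb b hb0, if_neg hb0, sub_zero]
  have hv' : MemLp (fun y => u y - c) 2 (AddCircle.haarAddCircle : Measure TT) := by
    rw [← vol_haar]
    exact hv
  have h2 : fourierBasis.repr (hv'.toLp _) = 0 := by
    ext b
    rw [fourierBasis_repr, fourierCoeff_congr_ae hv'.coeFn_toLp, ← fc_eq, h1 b]
    rfl
  have h3 : hv'.toLp (fun y => u y - c) = 0 := by
    exact (LinearIsometryEquiv.map_eq_zero_iff _).1 h2
  have h4 := hv'.coeFn_toLp
  rw [h3] at h4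
  have h5 := Lp.coeFn_zero ℂ 2 (AddCircle.haarAddCircle : Measure TT)
  rw [vol_haar]
  filter_upwards [h4, h5] with y h6 h7
  rw [h6] at h7
  exact sub_eq_zero.1 h7

theorem tendsto_trans : Tendsto (fun k : ℕ =>
    (⟨fun x : TT => x + nn (2 * k + 1) • α, continuous_id.add continuous_const⟩ : C(TT, TT)))
    atTop (𝓝 (ContinuousMap.id TT)) := by
  rw [tendsto_iff_dist_tendsto_zero]
  have h1 : Tendsto (fun k : ℕ => nn (2 * k + 1) • α) atTop (𝓝 0) :=
    tendsto_nn.comp (tendsto_atTop_mono (fun k => (by show k ≤ 2 * k + 1; omega)) tendsto_id)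
  have h2 := h1.norm
  rw [norm_zero] at h2
  apply squeeze_zero (fun k => dist_nonneg) (fun k => ?_) h2
  rw [ContinuousMap.dist_le (norm_nonneg _)]
  intro x
  show dist (x + nn (2 * k + 1) • α) x ≤ _
  rw [dist_self_add_left]

theorem cf_odd (s : ℕ → ℝ) (k : ℕ) : cf s (2 * k + 1) = 1 / 2 := by
  unfold cf
  rw [if_neg]
  rintro ⟨i, hi⟩
  omega

theorem ergodic_Tm (s : ℕ → ℝ) : Ergodic (Tm s) (volume : Measure MM) := by
  refine { toMeasurePreserving := mp_Tm s, aeconst_set := ?_ }
  intro A hA hinv
  -- the invariant function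
  set g : MM → ℂ := A.indicator fun _ => (1 : ℂ) with hg
  have hgm : Measurable g := measurable_const.indicator hA
  have hg1 : ∀ p, ‖g p‖ ≤ 1 := by
    intro p
    rw [hg]
    by_cases hp : p ∈ A
    · rw [indicator_of_mem hp]; simp
    · rw [indicator_of_notMem hp]; simp
  have hgT : ∀ p, g (Tm s p) = g p := by
    intro p
    have : Tm s p ∈ A ↔ p ∈ A := by
      conv_rhs => rw [← hinv]
      rfl
    by_cases hp : p ∈ A
    · rw [hg, indicator_of_mem hp, indicator_of_mem (this.2 hp)]
    · rw [hg, indicator_of_notMem hp, indicator_of_notMem (fun h => hp (this.1 h))]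
  have hgTn : ∀ n p, g (Tn s n p) = g p := by
    intro n p
    rw [← Tm_iterate]
    induction n with
    | zero => rfl
    | succ n ih => rw [iterate_succ_apply', hgT, ih]
  -- its partial Fourier coefficients
  set F : ℤ → TT → ℂ := fun b x => fc (fun y => g (x, y)) b with hF
  have hFm : ∀ b, Measurable (F b) := by
    intro b
    have h1 : StronglyMeasurable fun p : TT × TT => fourier (-b) p.2 * g p :=
      (((ContinuousMap.continuous _).comp continuous_snd).measurable.mul hgm).stronglyMeasurable
    exact (h1.integral_prod_right' (ν := (volume : Measure TT))).measurable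
  have hF1 : ∀ b x, ‖F b x‖ ≤ 1 := by
    intro b x
    have h1 : ‖∫ y, fourier (-b) y * g (x, y)‖ ≤ 1 * (volume : Measure TT).real univ := by
      apply norm_integral_le_of_norm_le_const
      refine ae_of_all _ fun y => ?_
      rw [norm_mul, norm_fourier, one_mul]
      exact hg1 _
    rw [probReal_univ, mul_one] at h1
    exact h1
  have hrel : ∀ (b : ℤ) (n : ℕ) (x : TT), F b x = fourier b (S s (n • α) x : TT) * F b (x + n • α) := by
    intro b n x
    have h1 : (fun y => g (x, y)) =
        fun y => (fun z => g (x + n • α, z)) (y + (S s (n • α) x : TT)) := by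
      funext y
      rw [← hgTn n (x, y)]
      rfl
    show fc (fun y => g (x, y)) b = _
    rw [h1]
    exact fc_shift (fun z => g (x + n • α, z)) b (S s (n • α) x : TT)
  have hrot : Ergodic (fun x : TT => x + α) volume := AddCircle.ergodic_add_right.2 addOrderOf_α
  have hone : ∀ b x, ‖F b (x + α)‖ = ‖F b x‖ := by
    intro b x
    have h1 := hrel b 1 x
    rw [one_nsmul] at h1
    rw [h1, norm_mul, norm_fourier, one_mul]
  -- nonzero frequencies
  have hzero : ∀ b : ℤ, b ≠ 0 → ∀ᵐ x ∂(volume : Measure TT), F b x = 0 := by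
    intro b hb
    obtain ⟨c, hc⟩ := hrot.toPreErgodic.ae_eq_const_of_ae_eq_comp (g := fun x => ‖F b x‖)
      (hFm b).norm (funext fun x => hone b x)
    have hcc : ∀ᵐ x ∂(volume : Measure TT), ‖F b x‖ = c := hc
    have hc0 : 0 ≤ c := by
      obtain ⟨x, hx⟩ := hcc.exists
      rw [← hx]
      exact norm_nonneg _
    rcases hc0.lt_or_eq with hc0 | hc0
    · exfalso
      have hi : Integrable (F b) :=
        (integrable_const (1 : ℝ)).mono' (hFm b).aestronglyMeasurable (ae_of_all _ (hF1 b))
      have hlim := tendsto_mean hi tendsto_trans (fun k => measurePreserving_add_right _ _)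
      have heq : ∀ k : ℕ, ∫ x, ‖F b (x + nn (2 * k + 1) • α) - F b x‖ =
          c * ∫ x, ‖ex ((b * S s (nn (2 * k + 1) • α) x : ℝ) : TT) - 1‖ := by
        intro k
        rw [← integral_const_mul]
        apply integral_congr_ae
        have hcc' := (measurePreserving_add_right (volume : Measure TT)
          (nn (2 * k + 1) • α)).quasiMeasurePreserving.ae hcc
        filter_upwards [hcc'] with x hx
        have h1 := hrel b (nn (2 * k + 1)) x
        rw [fourier_eq_ex] at h1
        rw [h1, ← norm_neg, ← hx, ← norm_mul]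
        congr 1
        ring
      have hb' : (-b : ℝ) ≠ 0 := by
        have : (b : ℝ) ≠ 0 := by exact_mod_cast hb
        exact neg_ne_zero.2 this
      have hlow : ∀ k : ℕ, (∫ x, def1 (-b) x) - 2 * Real.pi * (|(b : ℝ)| * err (2 * k + 1)) ≤
          ∫ x, ‖ex ((b * S s (nn (2 * k + 1) • α) x : ℝ) : TT) - 1‖ := by
        intro k
        apply lower (k := 2 * k + 1) (u := fun x => b * S s (nn (2 * k + 1) • α) x)
          (continuous_const.mul (continuous_S s (Sm_nsmul _)))
        intro x
        have h1 := approx s (k := 2 * k + 1) (by omega) x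
        rw [cf_odd] at h1
        have h2 : (b : ℝ) * S s (nn (2 * k + 1) • α) x - -b * C (2 * k + 1) x =
          b * (S s (nn (2 * k + 1) • α) x + 2 * (1 / 2) * C (2 * k + 1) x) := by ring
        rw [h2, abs_mul]
        exact mul_le_mul_of_nonneg_left h1 (abs_nonneg _)
      have hpos := int_def1_pos hb'
      have hle : ∀ k : ℕ, c * ((∫ x, def1 (-b) x) - 2 * Real.pi * (|(b : ℝ)| * err (2 * k + 1))) ≤
          ∫ x, ‖F b (x + nn (2 * k + 1) • α) - F b x‖ := by
        intro k
        rw [heq k]
        exact mul_le_mul_of_nonneg_left (hlow k) hc0.le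
      have herr : Tendsto (fun k : ℕ =>
          c * ((∫ x, def1 (-b) x) - 2 * Real.pi * (|(b : ℝ)| * err (2 * k + 1)))) atTop
          (𝓝 (c * ((∫ x, def1 (-b) x) - 2 * Real.pi * (|(b : ℝ)| * 0)))) := by
        have h1 : Tendsto (fun k : ℕ => err (2 * k + 1)) atTop (𝓝 0) :=
          tendsto_err.comp (tendsto_atTop_mono (fun k => (by show k ≤ 2 * k + 1; omega)) tendsto_id)
        exact ((h1.const_mul _).const_mul _).const_sub _ |>.const_mul _
      have h9 := le_of_tendsto_of_tendsto' herr hlim hle
      have h10 : 0 < c * ((∫ x, def1 (-b) x) - 2 * Real.pi * (|(b : ℝ)| * 0)) := by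
        rw [mul_zero, mul_zero, sub_zero]
        positivity
      linarith
    · filter_upwards [hcc] with x hx
      rw [← hc0] at hx
      exact norm_eq_zero.1 hx
  -- zero frequency
  obtain ⟨c, hc⟩ := hrot.toPreErgodic.ae_eq_const_of_ae_eq_comp (g := F 0) (hFm 0)
    (funext fun x => by
      have h1 := hrel 0 1 x
      rw [one_nsmul, fourier_zero, one_mul] at h1
      exact h1.symm)
  have hcc : ∀ᵐ x ∂(volume : Measure TT), F 0 x = c := hc
  have hall : ∀ᵐ x ∂(volume : Measure TT), ∀ b : ℤ, b ≠ 0 → F b x = 0 := by
    rw [ae_all_iff]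
    intro b
    by_cases hb : b = 0
    · exact ae_of_all _ fun x h => (h hb).elim
    · filter_upwards [hzero b hb] with x hx _
      exact hx
  have hconst : ∀ᵐ x ∂(volume : Measure TT), ∀ᵐ y ∂(volume : Measure TT), (x, y) ∈ g ⁻¹' {c} := by
    filter_upwards [hcc, hall] with x h1 h2
    have h3 : MemLp (fun y => g (x, y)) 2 (volume : Measure TT) := by
      apply MemLp.of_bound (hgm.comp measurable_prodMk_left).aestronglyMeasurable 1
      exact ae_of_all _ fun y => hg1 _
    exact eq_const h3 h1 h2
  have hae : ∀ᵐ p ∂(volume : Measure MM), p ∈ g ⁻¹' {c} :=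
    (Measure.ae_prod_mem_iff_ae_ae_mem (hgm (measurableSet_singleton c))).2 hconst
  rw [eventuallyConst_set']
  by_cases hc1 : c = 1
  · right
    filter_upwards [hae] with p hp
    have hp1 : p ∈ A := by
      by_contra hn
      have : g p = 0 := by rw [hg, indicator_of_notMem hn]
      have h2 : g p = c := hp
      rw [this, hc1] at h2
      exact zero_ne_one h2
    exact eq_true hp1
  · left
    filter_upwards [hae] with p hp
    have hp1 : p ∉ A := by
      intro hn
      have : g p = 1 := by rw [hg, indicator_of_mem hn]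
      have h2 : g p = c := hp
      rw [this] at h2
      exact hc1 h2.symm
    exact eq_false hp1

end Pool.Agent.X219.SE
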