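import Pool.Agent.X219.SE.Skew

/-!
Lower bounds and approximation in mean.
-/

set_option autoImplicit false

open Filter Topology Set MeasureTheory Function
open scoped Manifold ContDiff

namespace Pool.Agent.X219.SE

attribute [local instance] prob_TT

theorem norm_ex_sub (u v : ℝ) : ‖ex (u : TT) - ex (v : TT)‖ ≤ 2 * Real.pi * |u - v| := by
  have h : ex (u : TT) - ex (v : TT) = ex (v : TT) * (ex ((u - v : ℝ) : TT) - 1) := by
    rw [mul_sub, mul_one, ← ex_add, ← AddCircle.coe_add]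
    congr 3
    ring
  rw [h, norm_mul, norm_ex, one_mul]
  exact norm_ex_coe_le _

theorem norm_ex_sub_one_le (x : TT) : ‖ex x - 1‖ ≤ 2 := by
  refine (norm_sub_le _ _).trans ?_
  rw [norm_ex, norm_one]
  norm_num

theorem ex_coe_ne {t : ℝ} (h0 : t ≠ 0) (h1 : |t| < 1) : ex (t : TT) ≠ 1 := by
  intro h
  rw [ex_coe, Complex.exp_eq_one_iff] at h
  obtain ⟨n, hn⟩ := h
  have h2 : ((2 * Real.pi * t : ℝ) : ℂ) = ((n * (2 * Real.pi) : ℝ) : ℂ) := by
    apply mul_left_cancel₀ Complex.I_ne_zero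
    rw [hn]
    push_cast
    ring
  have h3 : 2 * Real.pi * t = n * (2 * Real.pi) := by exact_mod_cast h2
  have h4 : t = n := by
    have h5 : (2 * Real.pi) ≠ 0 := by positivity
    apply mul_left_cancel₀ h5
    rw [h3]
    ring
  rw [h4] at h0 h1
  have h5 : |n| < 1 := by
    have : ((|n| : ℤ) : ℝ) < 1 := by rwa [Int.cast_abs]
    exact_mod_cast this
  rw [Int.abs_lt_one_iff] at h5
  rw [h5] at h0
  simp at h0

theorem exists_re {r : ℝ} (h1 : -1 ≤ r) (h2 : r ≤ 1) : ∃ x : TT, (ex x).re = r := by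
  refine ⟨((Real.arccos r / (2 * Real.pi) : ℝ) : TT), ?_⟩
  rw [ex_coe]
  have : 2 * Real.pi * (Real.arccos r / (2 * Real.pi)) = Real.arccos r := by
    have h5 : (2 * Real.pi) ≠ 0 := by positivity
    field_simp
  rw [this, mul_comm, Complex.exp_ofReal_mul_I_re]
  exact Real.cos_arccos h1 h2

/-- the defect -/
noncomputable def def1 (A : ℝ) (x : TT) : ℝ := ‖ex ((A * (ex x).re : ℝ) : TT) - 1‖

theorem continuous_def1 (A : ℝ) : Continuous (def1 A) := by
  unfold def1
  exact ((continuous_ex.comp ((AddCircle.continuous_mk' 1).comp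
    (continuous_const.mul (Complex.continuous_re.comp continuous_ex)))).sub continuous_const).norm

theorem int_def1_pos {A : ℝ} (hA : A ≠ 0) : 0 < ∫ x, def1 A x := by
  have h0 : 0 ≤ ∫ x, def1 A x := integral_nonneg fun x => norm_nonneg _
  rcases h0.lt_or_eq with h | h
  · exact h
  exfalso
  have hi : Integrable (def1 A) := (continuous_def1 A).integrable_of_hasCompactSupport
    (HasCompactSupport.of_compactSpace _)
  have h1 := (integral_eq_zero_iff_of_nonneg (fun x => norm_nonneg _) hi).1 h.symm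
  have h2 := ((continuous_def1 A).ae_eq_iff_eq volume continuous_zero).1 h1
  set r := 1 / (2 * |A| + 2) with hr
  have hA' : 0 < |A| := abs_pos.2 hA
  have hr0 : 0 < r := by positivity
  have hr1 : r ≤ 1 := by
    rw [hr, div_le_one (by positivity)]
    linarith
  obtain ⟨x, hx⟩ := exists_re (r := r) (by linarith) hr1
  have h3 := congrFun h2 x
  unfold def1 at h3
  rw [hx] at h3
  have h4 : ex ((A * r : ℝ) : TT) ≠ 1 := by
    apply ex_coe_ne (mul_ne_zero hA hr0.ne')
    rw [abs_mul, abs_of_pos hr0, hr, mul_one_div, div_lt_one (by positivity)]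
    linarith
  apply h4
  have h5 : ‖ex ((A * r : ℝ) : TT) - 1‖ = 0 := h3
  rwa [norm_eq_zero, sub_eq_zero] at h5

theorem int_def1_C (A : ℝ) (k : ℕ) :
    ∫ x, ‖ex ((A * C k x : ℝ) : TT) - 1‖ = ∫ x, def1 A x := by
  have h1 := (AddCircle.ergodic_nsmul (T := 1) (n := Q k) (two_le k)).toMeasurePreserving
  have h2 : ∫ x, def1 A x ∂(Measure.map (fun y : TT => Q k • y) volume) =
      ∫ x, def1 A (Q k • x) :=
    integral_map h1.measurable.aemeasurable (continuous_def1 A).aestronglyMeasurable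
  rw [h1.map_eq] at h2
  rw [h2]
  rfl

/-- the lower bound -/
theorem lower {A ε : ℝ} {k : ℕ} {u : TT → ℝ} (hu : Continuous u)
    (h : ∀ x, |u x - A * C k x| ≤ ε) :
    (∫ x, def1 A x) - 2 * Real.pi * ε ≤ ∫ x, ‖ex (u x : TT) - 1‖ := by
  rw [← int_def1_C A k]
  have hc1 : Continuous fun x : TT => ‖ex ((A * C k x : ℝ) : TT) - 1‖ :=
    ((continuous_ex.comp ((AddCircle.continuous_mk' 1).comp
      (continuous_const.mul (continuous_C k)))).sub continuous_const).norm
  have hc2 : Continuous fun x : TT => ‖ex (u x : TT) - 1‖ :=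
    ((continuous_ex.comp ((AddCircle.continuous_mk' 1).comp hu)).sub continuous_const).norm
  have hi1 : Integrable fun x : TT => ‖ex ((A * C k x : ℝ) : TT) - 1‖ :=
    hc1.integrable_of_hasCompactSupport (HasCompactSupport.of_compactSpace _)
  have hi2 : Integrable fun x : TT => ‖ex (u x : TT) - 1‖ :=
    hc2.integrable_of_hasCompactSupport (HasCompactSupport.of_compactSpace _)
  have h1 : ∫ x, ‖ex ((A * C k x : ℝ) : TT) - 1‖ ≤
      ∫ x, (‖ex (u x : TT) - 1‖ + 2 * Real.pi * ε) := by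
    apply integral_mono hi1 (hi2.add (integrable_const _))
    intro x
    have h2 := norm_ex_sub (A * C k x) (u x)
    have h3 : ‖ex ((A * C k x : ℝ) : TT) - 1‖ ≤
        ‖ex (u x : TT) - 1‖ + ‖ex ((A * C k x : ℝ) : TT) - ex (u x : TT)‖ := by
      have h4 : ex ((A * C k x : ℝ) : TT) - 1 =
        (ex (u x : TT) - 1) + (ex ((A * C k x : ℝ) : TT) - ex (u x : TT)) := by ring
      conv_lhs => rw [h4]
      exact norm_add_le _ _
    have h5 := h x
    rw [abs_sub_comm] at h5
    have h6 : 2 * Real.pi * |A * C k x - u x| ≤ 2 * Real.pi * ε := by gcongr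
    show ‖ex ((A * C k x : ℝ) : TT) - 1‖ ≤ ‖ex (u x : TT) - 1‖ + 2 * Real.pi * ε
    linarith
  rw [integral_add hi2 (integrable_const _), integral_const, probReal_univ, one_smul] at h1
  linarith

/-- approximation in mean -/
theorem tendsto_mean {X : Type} [TopologicalSpace X] [CompactSpace X] [R1Space X]
    [MeasurableSpace X] [BorelSpace X] {μ : Measure X} [IsFiniteMeasure μ]
    [μ.InnerRegularCompactLTTop] {ι : Type} {l : Filter ι} {g : X → ℂ}
    (hg : Integrable g μ) {T : ι → C(X, X)} (hT : Tendsto T l (𝓝 (ContinuousMap.id X)))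
    (hm : ∀ k, MeasurePreserving (T k) μ μ) :
    Tendsto (fun k => ∫ x, ‖g (T k x) - g x‖ ∂μ) l (𝓝 0) := by
  have hid : MeasurePreserving (ContinuousMap.id X) μ μ := MeasurePreserving.id μ
  have h1 : Tendsto (fun k => Lp.compMeasurePreserving (T k) (hm k) (hg.toL1 g)) l
      (𝓝 (Lp.compMeasurePreserving (ContinuousMap.id X) hid (hg.toL1 g))) :=
    Tendsto.compMeasurePreservingLp tendsto_const_nhds hT hm hid (by simp)
  rw [tendsto_iff_norm_sub_tendsto_zero] at h1
  refine h1.congr fun k => ?_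
  rw [L1.norm_eq_integral_norm]
  apply integral_congr_ae
  have e1 := Lp.coeFn_compMeasurePreserving (hg.toL1 g) (hm k)
  have e2 := Lp.coeFn_compMeasurePreserving (hg.toL1 g) hid
  have e3 := Lp.coeFn_sub (Lp.compMeasurePreserving (T k) (hm k) (hg.toL1 g))
    (Lp.compMeasurePreserving (ContinuousMap.id X) hid (hg.toL1 g))
  have e4 := hg.coeFn_toL1
  have e5 := (hm k).quasiMeasurePreserving.ae_eq_comp e4
  filter_upwards [e1, e2, e3, e4, e5] with x h1 h2 h3 h4 h5
  rw [h3, Pi.sub_apply, h1, h2]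
  have h5' : (hg.toL1 g) (T k x) = g (T k x) := h5
  show ‖(hg.toL1 g) (T k x) - (hg.toL1 g) x‖ = ‖g (T k x) - g x‖
  rw [h4, h5']

end Pool.Agent.X219.SE
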