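import Pool.Agent.X219.SE.Phi

/-!
The two dimensional torus as a smooth manifold.
-/

set_option autoImplicit false

open Filter Topology Set MeasureTheory
open scoped Manifold ContDiff

namespace Pool.Agent.X219.SE

/-- the model space -/
abbrev EE : Type := EuclideanSpace ℝ (Fin 2)

/-- the torus -/
abbrev MM : Type := TT × TT

/-- coordinates -/
noncomputable def Λ : EE ≃L[ℝ] ℝ × ℝ :=
  (EuclideanSpace.equiv (Fin 2) ℝ).trans (ContinuousLinearEquiv.finTwoArrow ℝ ℝ)

/-- the covering map -/
noncomputable def pp (v : EE) : MM := (((Λ v).1 : TT), ((Λ v).2 : TT))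

theorem pp_add (u v : EE) : pp (u + v) = pp u + pp v := by
  unfold pp
  rw [map_add]
  rfl

theorem pp_sub (u v : EE) : pp (u - v) = pp u - pp v := by
  unfold pp
  rw [map_sub]
  rfl

theorem continuous_pp : Continuous pp := by
  unfold pp
  exact ((AddCircle.continuous_mk' 1).comp (continuous_fst.comp Λ.continuous)).prodMk
    ((AddCircle.continuous_mk' 1).comp (continuous_snd.comp Λ.continuous))

/-- the inverse charts -/
noncomputable def dd (a : ℝ × ℝ) : OpenPartialHomeomorph EE MM :=
  Λ.toHomeomorph.toOpenPartialHomeomorph.trans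
    ((AddCircle.openPartialHomeomorphCoe 1 a.1).prod (AddCircle.openPartialHomeomorphCoe 1 a.2))

theorem dd_apply (a : ℝ × ℝ) (v : EE) : dd a v = pp v := rfl

theorem source_dd (a : ℝ × ℝ) :
    (dd a).source = Λ ⁻¹' (Ioo a.1 (a.1 + 1) ×ˢ Ioo a.2 (a.2 + 1)) := by
  unfold dd
  rw [OpenPartialHomeomorph.trans_source]
  simp only [Homeomorph.toOpenPartialHomeomorph_source, univ_inter]
  rfl

theorem exists_dd (x : MM) : ∃ a : ℝ × ℝ, x ∈ (dd a).target := by
  obtain ⟨x1, x2⟩ := x
  obtain ⟨u1, rfl⟩ := QuotientAddGroup.mk_surjective x1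
  obtain ⟨u2, rfl⟩ := QuotientAddGroup.mk_surjective x2
  refine ⟨(u1 - 1 / 2, u2 - 1 / 2), ?_⟩
  have h1 : Λ.symm (u1, u2) ∈ (dd (u1 - 1 / 2, u2 - 1 / 2)).source := by
    rw [source_dd, mem_preimage, ContinuousLinearEquiv.apply_symm_apply]
    refine ⟨⟨?_, ?_⟩, ⟨?_, ?_⟩⟩
    · show u1 - 1 / 2 < u1; linarith
    · show u1 < u1 - 1 / 2 + 1; linarith
    · show u2 - 1 / 2 < u2; linarith
    · show u2 < u2 - 1 / 2 + 1; linarith
  have h2 := (dd (u1 - 1 / 2, u2 - 1 / 2)).map_source h1
  rw [dd_apply, pp, ContinuousLinearEquiv.apply_symm_apply] at h2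
  exact h2

/-- the charted space structure of the torus -/
@[reducible] noncomputable def chs : ChartedSpace EE MM where
  atlas := range fun a => (dd a).symm
  chartAt x := (dd (exists_dd x).choose).symm
  mem_chart_source x := (exists_dd x).choose_spec
  chart_mem_atlas _ := ⟨_, rfl⟩

attribute [local instance] chs

theorem loc {a : ℝ × ℝ} {v : EE} (h : pp v ∈ (dd a).target) :
    ∃ w : EE, ∀ᶠ u in 𝓝 v, (dd a).symm (pp u) = u + w := by
  set w₀ := (dd a).symm (pp v) with hw₀
  have h1 : w₀ ∈ (dd a).source := (dd a).map_target h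
  have h2 : pp w₀ = pp v := by
    rw [← dd_apply a w₀]
    exact (dd a).right_inv h
  refine ⟨w₀ - v, ?_⟩
  have h3 : Tendsto (fun u : EE => u + (w₀ - v)) (𝓝 v) (𝓝 w₀) := by
    have : Tendsto (fun u : EE => u + (w₀ - v)) (𝓝 v) (𝓝 (v + (w₀ - v))) :=
      (continuous_id.add continuous_const).tendsto v
    rwa [add_sub_cancel] at this
  filter_upwards [h3 ((dd a).open_source.mem_nhds h1)] with u hu
  have h4 : pp u = dd a (u + (w₀ - v)) := by
    rw [dd_apply, pp_add, pp_sub, h2, sub_self, add_zero]
  rw [h4]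
  exact (dd a).left_inv hu

theorem contDiffAt_chart {a : ℝ × ℝ} {v : EE} (h : pp v ∈ (dd a).target) :
    ContDiffAt ℝ ∞ (fun u => (dd a).symm (pp u)) v := by
  obtain ⟨w, hw⟩ := loc h
  have h1 : ContDiffAt ℝ ∞ (fun u : EE => u + w) v :=
    (contDiff_id.add contDiff_const).contDiffAt
  exact h1.congr_of_eventuallyEq hw

theorem isManifold_MM : IsManifold (𝓡 2) ∞ MM := by
  apply isManifold_of_contDiffOn
  rintro _ _ ⟨a, rfl⟩ ⟨b, rfl⟩
  intro v hv
  obtain ⟨hv, -⟩ := hv
  have hv' : v ∈ (((dd a).symm.symm).trans (dd b).symm).source := hv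
  rw [OpenPartialHomeomorph.trans_source, OpenPartialHomeomorph.symm_symm] at hv'
  obtain ⟨h1, h2⟩ := hv'
  have h3 : pp v ∈ (dd b).target := h2
  exact (contDiffAt_chart h3).contDiffWithinAt

attribute [local instance] isManifold_MM

theorem contMDiff_of_lift {T : MM → MM} (hT : Continuous T) {F : EE → EE} (hF : ContDiff ℝ ∞ F)
    (h : ∀ v, pp (F v) = T (pp v)) : ContMDiff (𝓡 2) (𝓡 2) ∞ T := by
  intro x
  rw [contMDiffAt_iff]
  refine ⟨hT.continuousAt, ?_⟩
  set a := (exists_dd x).choose with ha
  set b := (exists_dd (T x)).choose with hb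
  have hx : x ∈ (dd a).target := (exists_dd x).choose_spec
  have hTx : T x ∈ (dd b).target := (exists_dd (T x)).choose_spec
  set v := (dd a).symm x with hv
  have hpv : pp v = x := by
    rw [← dd_apply a v]
    exact (dd a).right_inv hx
  have h1 : ContDiffAt ℝ ∞ (fun u => (dd b).symm (pp (F u))) v := by
    have h2 : pp (F v) ∈ (dd b).target := by rw [h, hpv]; exact hTx
    exact (contDiffAt_chart h2).comp v hF.contDiffAt
  have h3 : ContDiffAt ℝ ∞ (fun u => (dd b).symm (T (pp u))) v := by
    simpa only [h] using h1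
  exact h3.contDiffWithinAt

/-! ### the volume -/

theorem mp_Λ : MeasurePreserving Λ volume volume :=
  (volume_preserving_finTwoArrow ℝ).comp (PiLp.volume_preserving_ofLp (Fin 2))

theorem mp_box (a : ℝ × ℝ) :
    MeasurePreserving pp (volume.restrict (dd a).source) (volume : Measure MM) := by
  have h1 : ∀ t : ℝ, MeasurePreserving (fun x : ℝ => (x : TT)) (volume.restrict (Ioo t (t + 1)))
      volume := by
    intro t
    have := AddCircle.measurePreserving_mk (1 : ℝ) t
    rwa [← Measure.restrict_congr_set Ioo_ae_eq_Ioc] at this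
  have h2 := (h1 a.1).prod (h1 a.2)
  rw [Measure.prod_restrict] at h2
  have h3 := mp_Λ.restrict_preimage
    (s := Ioo a.1 (a.1 + 1) ×ˢ Ioo a.2 (a.2 + 1)) (measurableSet_Ioo.prod measurableSet_Ioo)
  rw [source_dd]
  exact h2.comp h3

theorem smooth_volume : ∀ e ∈ atlas EE MM, ∃ ρ : EE → ℝ,
    ContDiffOn ℝ ∞ ρ e.target ∧ (∀ y ∈ e.target, 0 < ρ y) ∧
      Measure.map (⇑e) ((volume : Measure MM).restrict e.source) =
        (volume.withDensity (fun y => ENNReal.ofReal (ρ y))).restrict e.target := by
  rintro _ ⟨a, rfl⟩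
  refine ⟨fun _ => 1, contDiffOn_const, fun _ _ => one_pos, ?_⟩
  have h0 : (volume : Measure EE).withDensity (fun _ => ENNReal.ofReal 1) = volume := by
    rw [ENNReal.ofReal_one]
    exact withDensity_one
  rw [h0]
  show Measure.map (dd a).symm ((volume : Measure MM).restrict (dd a).target) =
    volume.restrict (dd a).source
  have hmt : MeasurableSet (dd a).target := (dd a).open_target.measurableSet
  have hms : MeasurableSet (dd a).source := (dd a).open_source.measurableSet
  have h1 : (volume : Measure MM).restrict (dd a).target =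
      Measure.map pp (volume.restrict (dd a).source) := by
    have h2 := (mp_box a).map_eq
    conv_lhs => rw [← h2]
    rw [Measure.restrict_map continuous_pp.measurable hmt, Measure.restrict_restrict
      (continuous_pp.measurable hmt)]
    congr 2
    ext v
    constructor
    · exact fun h => h.2
    · intro h
      exact ⟨(dd a).map_source h, h⟩
  have h2 : AEMeasurable (dd a).symm ((volume : Measure MM).restrict (dd a).target) :=
    (dd a).continuousOn_invFun.aemeasurable hmt
  rw [h1] at h2 ⊢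
  rw [AEMeasurable.map_map_of_aemeasurable h2 continuous_pp.aemeasurable]
  have h3 : (dd a).symm ∘ pp =ᵐ[volume.restrict (dd a).source] id := by
    filter_upwards [ae_restrict_mem hms] with v hv
    exact (dd a).left_inv hv
  rw [Measure.map_congr h3, Measure.map_id]

end Pool.Agent.X219.SE
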