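import Pool.Agent.X219.SE.Erg

/-!
Non-isomorphism of the skew products.
-/

set_option autoImplicit false

open Filter Topology Set MeasureTheory Function
open scoped Manifold ContDiff

namespace Pool.Agent.X219.SE

attribute [local instance] prob_TT

open Pool.Agent.X219.TC (amp continuous_amp)

theorem ae_iterate {s t : ℕ → ℝ} {φ : MM → MM} (hφ : MeasurePreserving φ volume volume)
    (hc : φ ∘ Tm s =ᵐ[volume] Tm t ∘ φ) (n : ℕ) :
    ∀ᵐ p ∂(volume : Measure MM), φ (Tn s n p) = Tn t n (φ p) := by
  have h : ∀ᵐ p ∂(volume : Measure MM), φ ((Tm s)^[n] p) = (Tm t)^[n] (φ p) := by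
    induction n with
    | zero => exact ae_of_all _ fun p => rfl
    | succ n ih =>
      have h1 := (mp_Tm s).quasiMeasurePreserving.ae ih
      filter_upwards [h1, hc] with p h2 h3
      rw [iterate_succ_apply, iterate_succ_apply, h2]
      have h4 : φ (Tm s p) = Tm t (φ p) := h3
      rw [h4]
  simpa only [Tm_iterate] using h

theorem cf_even (s : ℕ → ℝ) (k : ℕ) : cf s (2 * k) = amp (s k) := by
  unfold cf
  rw [if_pos (even_two_mul k), Nat.mul_div_cancel_left k (by norm_num)]

theorem not_iso {s t : ℕ → ℝ} (h : ∀ N, (s, t) ∈ TC.Wn (Real.pi / 2) N) {φ : MM → MM}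
    (hφ : MeasurePreserving φ volume volume) (hc : φ ∘ Tm s =ᵐ[volume] Tm t ∘ φ) : False := by
  choose k' hk' h1' h2' using h
  set j : ℕ → ℕ := fun N => 2 * k' (N + 1) with hj
  have hj1 : ∀ N, 1 ≤ j N := by
    intro N
    have := hk' (N + 1)
    show 1 ≤ 2 * k' (N + 1)
    omega
  have hjt : Tendsto j atTop atTop := by
    apply tendsto_atTop_mono (fun N => ?_) tendsto_id
    have := hk' (N + 1)
    show N ≤ 2 * k' (N + 1)
    omega
  have hz : Tendsto (fun N : ℕ => 1 / (((N + 1 : ℕ) : ℝ) + 1)) atTop (𝓝 0) :=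
    tendsto_one_div_add_atTop_nhds_zero_nat.comp (tendsto_add_atTop_nat 1)
  have es : Tendsto (fun N => cf s (j N)) atTop (𝓝 0) := by
    have e1 : Tendsto (fun N => s (k' (N + 1))) atTop (𝓝 0) :=
      squeeze_zero_norm (fun N => (h1' (N + 1)).le) hz
    have e2 := (continuous_amp.tendsto 0).comp e1
    have e3 : amp 0 = 0 := by unfold TC.amp; rw [Real.sin_zero, zero_div]
    rw [e3] at e2
    refine e2.congr fun N => ?_
    exact (cf_even s _).symm
  have et : Tendsto (fun N => cf t (j N)) atTop (𝓝 (1 / 2)) := by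
    have e1 : Tendsto (fun N => t (k' (N + 1))) atTop (𝓝 (Real.pi / 2)) := by
      have : Tendsto (fun N => t (k' (N + 1)) - Real.pi / 2) atTop (𝓝 0) :=
        squeeze_zero_norm (fun N => (h2' (N + 1)).le) hz
      have h3 := this.add_const (Real.pi / 2)
      simpa using h3
    have e2 := (continuous_amp.tendsto (Real.pi / 2)).comp e1
    have e3 : amp (Real.pi / 2) = 1 / 2 := by unfold TC.amp; rw [Real.sin_pi_div_two]
    rw [e3] at e2
    refine e2.congr fun N => ?_
    exact (cf_even t _).symm
  have herr : Tendsto (fun N => err (j N)) atTop (𝓝 0) := tendsto_err.comp hjt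
  -- the powers of the first map converge to the identity
  have hT : Tendsto (fun N => (⟨Tn s (nn (j N)), continuous_Tn s _⟩ : C(MM, MM))) atTop
      (𝓝 (ContinuousMap.id MM)) := by
    rw [tendsto_iff_dist_tendsto_zero]
    have hb : Tendsto (fun N => ‖nn (j N) • α‖ + (err (j N) + 2 * |cf s (j N)|)) atTop (𝓝 0) := by
      have e1 := (tendsto_nn.comp hjt).norm
      rw [norm_zero] at e1
      have e2 := (es.abs).const_mul 2
      rw [abs_zero, mul_zero] at e2
      have e3 := e1.add (herr.add e2)
      rw [add_zero, add_zero] at e3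
      exact e3
    apply squeeze_zero (fun N => dist_nonneg) (fun N => ?_) hb
    have herr0 : 0 ≤ err (j N) := by unfold err; positivity
    rw [ContinuousMap.dist_le (by positivity)]
    intro p
    show dist (Tn s (nn (j N)) p) p ≤ _
    rw [Prod.dist_eq]
    apply max_le
    · show dist (p.1 + nn (j N) • α) p.1 ≤ _
      rw [dist_self_add_left]
      have : 0 ≤ err (j N) + 2 * |cf s (j N)| := by positivity
      linarith
    · show dist (p.2 + (S s (nn (j N) • α) p.1 : TT)) p.2 ≤ _
      rw [dist_self_add_left]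
      have e1 : ‖((S s (nn (j N) • α) p.1 : ℝ) : TT)‖ ≤ |S s (nn (j N) • α) p.1| :=
        QuotientAddGroup.norm_mk_le_norm
      have e2 := approx s (hj1 N) p.1
      have e3 : |S s (nn (j N) • α) p.1| ≤ err (j N) + 2 * |cf s (j N)| := by
        have e4 : S s (nn (j N) • α) p.1 =
          (S s (nn (j N) • α) p.1 + 2 * cf s (j N) * C (j N) p.1) -
            2 * cf s (j N) * C (j N) p.1 := by ring
        rw [e4]
        refine (abs_sub _ _).trans ?_
        have e5 : |2 * cf s (j N) * C (j N) p.1| ≤ 2 * |cf s (j N)| := by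
          rw [abs_mul, abs_mul, abs_two]
          calc 2 * |cf s (j N)| * |C (j N) p.1| ≤ 2 * |cf s (j N)| * 1 :=
                mul_le_mul_of_nonneg_left (abs_C _ _) (by positivity)
            _ = _ := mul_one _
        linarith
      have e4 := norm_nonneg (nn (j N) • α)
      linarith
  -- the test function
  set g : MM → ℂ := fun p => ex (φ p).2 with hg
  have hgm : Measurable g := continuous_ex.measurable.comp (measurable_snd.comp hφ.measurable)
  have hgi : Integrable g := (integrable_const (1 : ℝ)).mono' hgm.aestronglyMeasurable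
    (ae_of_all _ fun p => (norm_ex _).le)
  have hlim := tendsto_mean hgi hT (fun N => mp_Tn s _)
  have heq : ∀ N, ∫ p, ‖g (Tn s (nn (j N)) p) - g p‖ =
      ∫ x, ‖ex ((S t (nn (j N) • α) x : ℝ) : TT) - 1‖ := by
    intro N
    have hcH : Continuous fun x : TT => ‖ex ((S t (nn (j N) • α) x : ℝ) : TT) - 1‖ :=
      ((continuous_ex.comp ((AddCircle.continuous_mk' 1).comp
        (continuous_S t (Sm_nsmul _)))).sub continuous_const).norm
    have e1 : ∫ p, ‖g (Tn s (nn (j N)) p) - g p‖ =
        ∫ p, ‖ex ((S t (nn (j N) • α) (φ p).1 : ℝ) : TT) - 1‖ := by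
      apply integral_congr_ae
      filter_upwards [ae_iterate hφ hc (nn (j N))] with p hp
      show ‖ex (φ (Tn s (nn (j N)) p)).2 - ex (φ p).2‖ = _
      rw [hp]
      show ‖ex ((φ p).2 + (S t (nn (j N) • α) (φ p).1 : TT)) - ex (φ p).2‖ = _
      rw [ex_add]
      have : ex (φ p).2 * ex (S t (nn (j N) • α) (φ p).1 : TT) - ex (φ p).2 =
        ex (φ p).2 * (ex (S t (nn (j N) • α) (φ p).1 : TT) - 1) := by ring
      rw [this, norm_mul, norm_ex, one_mul]
    have hf : MeasurePreserving (fun p : MM => (φ p).1) volume volume :=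
      (measurePreserving_fst (μ := (volume : Measure TT)) (ν := (volume : Measure TT))).comp hφ
    rw [e1]
    have e2 := integral_map (μ := (volume : Measure MM)) (φ := fun p : MM => (φ p).1)
      (f := fun x : TT => ‖ex ((S t (nn (j N) • α) x : ℝ) : TT) - 1‖)
      hf.measurable.aemeasurable hcH.aestronglyMeasurable
    rw [hf.map_eq] at e2
    exact e2.symm
  have hle : ∀ N, (∫ x, def1 (-1) x) - 2 * Real.pi * (err (j N) + |2 * cf t (j N) - 1|) ≤
      ∫ p, ‖g (Tn s (nn (j N)) p) - g p‖ := by
    intro N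
    rw [heq N]
    apply lower (k := j N) (continuous_S t (Sm_nsmul _))
    intro x
    have e1 := approx t (hj1 N) x
    have e2 : S t (nn (j N) • α) x - -1 * C (j N) x =
      (S t (nn (j N) • α) x + 2 * cf t (j N) * C (j N) x) -
        (2 * cf t (j N) - 1) * C (j N) x := by ring
    rw [e2]
    refine (abs_sub _ _).trans ?_
    have e3 : |(2 * cf t (j N) - 1) * C (j N) x| ≤ |2 * cf t (j N) - 1| := by
      rw [abs_mul]
      calc |2 * cf t (j N) - 1| * |C (j N) x| ≤ |2 * cf t (j N) - 1| * 1 :=
            mul_le_mul_of_nonneg_left (abs_C _ _) (abs_nonneg _)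
        _ = _ := mul_one _
    linarith
  have hpos := int_def1_pos (A := -1) (by norm_num)
  have hll : Tendsto (fun N => (∫ x, def1 (-1) x) -
      2 * Real.pi * (err (j N) + |2 * cf t (j N) - 1|)) atTop
      (𝓝 ((∫ x, def1 (-1) x) - 2 * Real.pi * (0 + |2 * (1 / 2) - 1|))) :=
    ((herr.add ((et.const_mul 2).sub_const 1).abs).const_mul _).const_sub _
  have h9 := le_of_tendsto_of_tendsto' hll hlim hle
  have h10 : (2 * (1 / 2) - 1 : ℝ) = 0 := by norm_num
  rw [h10, abs_zero, add_zero, mul_zero, sub_zero] at h9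
  linarith

end Pool.Agent.X219.SE
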