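import Mathlib

/-!
A Liouville number and its good approximations.
-/

set_option autoImplicit false

open Filter Topology

namespace Pool.Agent.X219.SE

/-- the circle -/
abbrev TT : Type := UnitAddCircle

/-- the character `x ↦ exp (2 π i x)` -/
noncomputable def ex (x : TT) : ℂ := (AddCircle.toCircle x : ℂ)

theorem ex_add (x y : TT) : ex (x + y) = ex x * ex y := by
  unfold ex
  rw [AddCircle.toCircle_add, Circle.coe_mul]

theorem ex_zero : ex 0 = 1 := by
  unfold ex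
  rw [AddCircle.toCircle_zero, Circle.coe_one]

theorem norm_ex (x : TT) : ‖ex x‖ = 1 := Circle.norm_coe _

theorem ex_nsmul (n : ℕ) (x : TT) : ex (n • x) = ex x ^ n := by
  unfold ex
  rw [AddCircle.toCircle_nsmul, Circle.coe_pow]

theorem continuous_ex : Continuous ex :=
  continuous_subtype_val.comp AddCircle.continuous_toCircle

theorem ex_coe (t : ℝ) : ex (t : TT) = Complex.exp (Complex.I * ((2 * Real.pi * t : ℝ) : ℂ)) := by
  unfold ex
  rw [AddCircle.toCircle_apply_mk, Circle.coe_exp]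
  congr 1
  push_cast
  ring

theorem ex_coe_int (z : ℤ) : ex ((z : ℝ) : TT) = 1 := by
  rw [ex_coe, Complex.exp_eq_one_iff]
  refine ⟨z, ?_⟩
  push_cast
  ring

theorem norm_ex_coe_le (t : ℝ) : ‖ex (t : TT) - 1‖ ≤ 2 * Real.pi * |t| := by
  rw [ex_coe]
  refine (Real.norm_exp_I_mul_ofReal_sub_one_le).trans ?_
  rw [Real.norm_eq_abs, abs_mul, abs_of_pos (by positivity : (0 : ℝ) < 2 * Real.pi)]

theorem ex_half : ex ((1 / 2 : ℝ) : TT) = -1 := by
  rw [ex_coe]
  have : Complex.I * ((2 * Real.pi * (1 / 2) : ℝ) : ℂ) = Real.pi * Complex.I := by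
    push_cast
    ring
  rw [this, Complex.exp_pi_mul_I]

/-- the frequencies -/
def Q (k : ℕ) : ℕ := 2 ^ (k + 1).factorial

theorem Q_pos (k : ℕ) : 0 < Q k := by unfold Q; positivity

theorem Q_succ (k : ℕ) : Q (k + 1) = Q k ^ (k + 2) := by
  unfold Q
  rw [← pow_mul, Nat.factorial_succ (k + 1), mul_comm (k + 1 + 1)]

theorem two_pow_le (k : ℕ) : 2 ^ (k + 1) ≤ Q k :=
  Nat.pow_le_pow_right (by norm_num) (Nat.self_le_factorial _)

theorem two_le (k : ℕ) : 2 ≤ Q k := by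
  refine le_trans ?_ (two_pow_le k)
  rw [pow_succ]
  have := Nat.one_le_two_pow (n := k)
  omega

theorem Q_dvd_succ (k : ℕ) : Q k ∣ Q (k + 1) := by
  rw [Q_succ, pow_succ]
  exact Dvd.intro_left _ rfl

theorem Q_dvd {j k : ℕ} (h : j ≤ k) : Q j ∣ Q k := by
  induction h with
  | refl => exact dvd_rfl
  | step _ ih => exact ih.trans (Q_dvd_succ _)

theorem Q_mono {j k : ℕ} (h : j ≤ k) : Q j ≤ Q k := Nat.le_of_dvd (Q_pos k) (Q_dvd h)

theorem Q_double (k : ℕ) : 2 * Q k ≤ Q (k + 1) := by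
  rw [Q_succ]
  calc 2 * Q k ≤ Q k * Q k := Nat.mul_le_mul_right _ (two_le k)
    _ = Q k ^ 2 := by ring
    _ ≤ Q k ^ (k + 2) := Nat.pow_le_pow_right (Q_pos k) (by omega)

theorem Q_grow (j k : ℕ) : 2 ^ j * Q k ≤ Q (j + k) := by
  induction j with
  | zero => simp
  | succ j ih =>
    have := Q_double (j + k)
    have h : j + 1 + k = j + k + 1 := by ring
    rw [h, pow_succ]
    calc 2 ^ j * 2 * Q k = 2 * (2 ^ j * Q k) := by ring
      _ ≤ 2 * Q (j + k) := Nat.mul_le_mul_left _ ih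
      _ ≤ _ := this

theorem Qr_pos (k : ℕ) : (0 : ℝ) < Q k := by exact_mod_cast Q_pos k

/-- the tails -/
noncomputable def rr (k : ℕ) : ℝ := ∑' j, 1 / (Q (j + k) : ℝ)

theorem term_le (j k : ℕ) : 1 / (Q (j + k) : ℝ) ≤ (1 / Q k) * (1 / 2) ^ j := by
  have h : ((2 : ℝ) ^ j * Q k) ≤ Q (j + k) := by exact_mod_cast Q_grow j k
  have h0 := Qr_pos k
  calc 1 / (Q (j + k) : ℝ) ≤ 1 / ((2 : ℝ) ^ j * Q k) :=
        one_div_le_one_div_of_le (by positivity) h
    _ = _ := by
      rw [one_div_pow]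
      field_simp

theorem summable_term (k : ℕ) : Summable fun j => 1 / (Q (j + k) : ℝ) :=
  Summable.of_nonneg_of_le (fun _ => by positivity) (fun j => term_le j k)
    ((summable_geometric_of_lt_one (by norm_num) (by norm_num)).mul_left _)

theorem rr_le (k : ℕ) : rr k ≤ 2 / Q k := by
  have h := (summable_term k).tsum_le_tsum (fun j => term_le j k)
    ((summable_geometric_of_lt_one (by norm_num) (by norm_num)).mul_left _)
  rw [tsum_mul_left, tsum_geometric_two] at h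
  unfold rr
  calc _ ≤ _ := h
    _ = _ := by ring

theorem rr_succ (k : ℕ) : rr k = 1 / Q k + rr (k + 1) := by
  have h := (summable_term k).tsum_eq_zero_add
  unfold rr
  rw [h, zero_add]
  congr 1
  congr 1
  funext j
  rw [add_assoc, add_comm 1 k]

theorem rr_pos (k : ℕ) : 0 < rr k := by
  rw [rr_succ]
  have h1 : 0 ≤ rr (k + 1) := tsum_nonneg fun j => by positivity
  have h2 := Qr_pos k
  positivity

/-- the rotation number -/
noncomputable def αr : ℝ := rr 0

theorem αr_eq (k : ℕ) : αr = ∑ j ∈ Finset.range k, 1 / (Q j : ℝ) + rr k := by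
  have h := (summable_term 0).sum_add_tsum_nat_add k
  unfold αr rr
  simp only [add_zero] at h ⊢
  exact h.symm

theorem near {k N : ℕ} (h : Q k ∣ N) : ∃ z : ℤ, (N : ℝ) * αr = z + N * rr (k + 1) := by
  refine ⟨∑ j ∈ Finset.range (k + 1), ((N / Q j : ℕ) : ℤ), ?_⟩
  rw [αr_eq (k + 1), mul_add, Finset.mul_sum]
  congr 1
  simp only [Int.cast_sum, Int.cast_natCast]
  apply Finset.sum_congr rfl
  intro j hj
  have hd : Q j ∣ N := (Q_dvd (by have := Finset.mem_range.1 hj; omega)).trans h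
  rw [Nat.cast_div hd (Qr_pos j).ne', mul_one_div]

/-- the point of the circle -/
noncomputable def α : TT := (αr : TT)

theorem nsmul_α (N : ℕ) : N • α = (((N : ℝ) * αr : ℝ) : TT) := by
  unfold α
  rw [← AddCircle.coe_nsmul, nsmul_eq_mul]

/-- distance of multiples of `α` from `0` -/
noncomputable def W (N : ℕ) : ℝ := ‖ex (N • α) - 1‖

theorem ex_of_eq {N : ℕ} {z : ℤ} {ρ : ℝ} (h : (N : ℝ) * αr = z + ρ) :
    ex (N • α) = ex (ρ : TT) := by
  rw [nsmul_α, h, AddCircle.coe_add, ex_add, ex_coe_int, one_mul]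

theorem W_le {N : ℕ} {z : ℤ} {ρ : ℝ} (h : (N : ℝ) * αr = z + ρ) : W N ≤ 2 * Real.pi * |ρ| := by
  unfold W
  rw [ex_of_eq h]
  exact norm_ex_coe_le ρ

theorem W_nonneg (N : ℕ) : 0 ≤ W N := norm_nonneg _

theorem W_dvd {k N : ℕ} (h : Q k ∣ N) : W N ≤ 4 * Real.pi * (N / Q (k + 1)) := by
  obtain ⟨z, hz⟩ := near h
  have h1 := W_le hz
  have h2 := rr_le (k + 1)
  have h3 := rr_pos (k + 1)
  rw [abs_of_nonneg (by positivity)] at h1
  refine h1.trans ?_
  calc 2 * Real.pi * (N * rr (k + 1)) ≤ 2 * Real.pi * (N * (2 / Q (k + 1))) := by gcongr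
    _ = _ := by ring

theorem W_Q (k : ℕ) : W (Q k) ≤ 4 * Real.pi * (1 / (Q k : ℝ) ^ (k + 1)) := by
  refine (W_dvd (dvd_refl (Q k))).trans (le_of_eq ?_)
  rw [Q_succ]
  have := Qr_pos k
  push_cast
  rw [pow_succ (Q k : ℝ) (k + 1)]
  field_simp

theorem inv_Q_le (k : ℕ) : 1 / (Q k : ℝ) ≤ (1 / 2) ^ k := by
  have h := term_le k 0
  rw [add_zero] at h
  refine h.trans ?_
  have h2 : (1 : ℝ) / Q 0 ≤ 1 := by
    rw [div_le_one (Qr_pos 0)]
    exact_mod_cast Q_pos 0
  calc 1 / (Q 0 : ℝ) * (1 / 2) ^ k ≤ 1 * (1 / 2) ^ k := by gcongr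
    _ = _ := one_mul _

theorem summable_W (p : ℕ) : Summable fun j => W (Q j) * (Q j : ℝ) ^ p := by
  have h1 : Summable fun j : ℕ => 4 * Real.pi * (1 / 2 : ℝ) ^ j :=
    (summable_geometric_of_lt_one (by norm_num) (by norm_num)).mul_left _
  apply Summable.of_norm_bounded_eventually_nat h1
  filter_upwards [eventually_ge_atTop p] with j hj
  rw [Real.norm_eq_abs, abs_of_nonneg (mul_nonneg (W_nonneg _) (by positivity))]
  have h2 := W_Q j
  have h3 := Qr_pos j
  have h4 : (1 : ℝ) ≤ Q j := by exact_mod_cast Q_pos j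
  calc W (Q j) * (Q j : ℝ) ^ p ≤ 4 * Real.pi * (1 / (Q j : ℝ) ^ (j + 1)) * (Q j : ℝ) ^ p := by
        gcongr
    _ ≤ 4 * Real.pi * (1 / (Q j : ℝ) ^ (j + 1)) * (Q j : ℝ) ^ j := by gcongr
    _ = 4 * Real.pi * (1 / Q j) := by
      rw [pow_succ]
      field_simp
    _ ≤ _ := by
      have := inv_Q_le j
      gcongr

/-! ### good times -/

/-- the good times -/
def nn (k : ℕ) : ℕ := 2 ^ ((k + 2).factorial - (k + 1).factorial - 1)

theorem fact_le (k : ℕ) : (k + 1).factorial + 1 ≤ (k + 2).factorial := by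
  rw [Nat.factorial_succ (k + 1)]
  have h := Nat.factorial_pos (k + 1)
  nlinarith

theorem two_mul_nn (k : ℕ) : 2 * Q k * nn k = Q (k + 1) := by
  unfold Q nn
  have h := fact_le k
  calc 2 * 2 ^ (k + 1).factorial * 2 ^ ((k + 2).factorial - (k + 1).factorial - 1)
      = 2 ^ (1 + (k + 1).factorial + ((k + 2).factorial - (k + 1).factorial - 1)) := by
        rw [pow_add, pow_add, pow_one]
    _ = 2 ^ (k + 1 + 1).factorial := by
      congr 1
      have : (k + 1 + 1).factorial = (k + 2).factorial := rfl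
      omega

theorem Q_dvd_nn {k : ℕ} (hk : 1 ≤ k) : Q k ∣ nn k := by
  unfold Q nn
  apply pow_dvd_pow
  have h : 3 * (k + 1).factorial ≤ (k + 2).factorial := by
    rw [Nat.factorial_succ (k + 1)]
    apply Nat.mul_le_mul_right
    omega
  have h2 := Nat.factorial_pos (k + 1)
  omega

theorem nn_le (k : ℕ) : nn k ≤ Q (k + 1) := by
  rw [← two_mul_nn]
  have h := Q_pos k
  nlinarith [Nat.zero_le (nn k), Nat.mul_le_mul_right (nn k) (show 1 ≤ 2 * Q k by omega)]

theorem W_nn {j k : ℕ} (hk : 1 ≤ k) (hjk : j ≠ k) :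
    W (Q j * nn k) ≤ 4 * Real.pi * ((1 / 2) ^ k * (1 / 2) ^ j) := by
  have hj0 := Qr_pos j
  have hk0 := Qr_pos k
  have hk1 := Qr_pos (k + 1)
  rcases lt_or_gt_of_ne hjk with h | h
  · refine (W_dvd ((Q_dvd_nn hk).mul_left (Q j))).trans ?_
    have e1 : ((Q j * nn k : ℕ) : ℝ) / Q (k + 1) = Q j / (2 * Q k) := by
      rw [← two_mul_nn k]
      have h0 : (nn k : ℝ) ≠ 0 := by
        have : 0 < nn k := by unfold nn; positivity
        exact_mod_cast this.ne'
      push_cast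
      field_simp
    rw [e1]
    have e2 : 2 ^ (k + j) * Q j ≤ Q k := by
      obtain ⟨k, rfl⟩ : ∃ k', k = k' + 1 := ⟨k - 1, by omega⟩
      rw [Q_succ]
      have h1 : Q j ≤ Q k := Q_mono (by omega)
      have h2 : 2 ^ (k + 1 + j) ≤ Q k ^ (k + 1) := by
        calc 2 ^ (k + 1 + j) ≤ 2 ^ ((k + 1) * (k + 1)) := by
              apply Nat.pow_le_pow_right (by norm_num)
              nlinarith
          _ = (2 ^ (k + 1)) ^ (k + 1) := by rw [pow_mul]
          _ ≤ _ := Nat.pow_le_pow_left (two_pow_le k) _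
      calc 2 ^ (k + 1 + j) * Q j ≤ Q k ^ (k + 1) * Q k := Nat.mul_le_mul h2 h1
        _ = _ := by rw [← pow_succ]
    have e3 : ((2 : ℝ) ^ (k + j) * Q j) ≤ Q k := by exact_mod_cast e2
    have e4 : (Q j : ℝ) / (2 * Q k) ≤ (1 / 2) ^ k * (1 / 2) ^ j := by
      rw [← pow_add, one_div_pow, div_le_div_iff₀ (by positivity) (by positivity)]
      nlinarith
    gcongr
  · refine (W_dvd (Dvd.intro _ rfl : Q j ∣ Q j * nn k)).trans ?_
    have e1 : nn k ≤ Q j := (nn_le k).trans (Q_mono h)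
    have e2 : 2 ^ (k + j) * (Q j * nn k) ≤ Q (j + 1) := by
      rw [Q_succ]
      have h2 : 2 ^ (k + j) ≤ Q j ^ j := by
        calc 2 ^ (k + j) ≤ 2 ^ ((j + 1) * j) := by
              apply Nat.pow_le_pow_right (by norm_num)
              nlinarith
          _ = (2 ^ (j + 1)) ^ j := by rw [pow_mul]
          _ ≤ _ := Nat.pow_le_pow_left (two_pow_le j) _
      calc 2 ^ (k + j) * (Q j * nn k) ≤ Q j ^ j * (Q j * Q j) :=
            Nat.mul_le_mul h2 (Nat.mul_le_mul_left _ e1)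
        _ = _ := by ring
    have e3 : ((2 : ℝ) ^ (k + j) * (Q j * nn k : ℕ)) ≤ Q (j + 1) := by exact_mod_cast e2
    have hj1 := Qr_pos (j + 1)
    have e4 : ((Q j * nn k : ℕ) : ℝ) / Q (j + 1) ≤ (1 / 2) ^ k * (1 / 2) ^ j := by
      rw [← pow_add, one_div_pow, div_le_div_iff₀ (by positivity) (by positivity)]
      linarith
    gcongr

theorem half_time {k : ℕ} (hk : 1 ≤ k) :
    ‖ex ((Q k * nn k) • α) + 1‖ ≤ 2 * Real.pi * (1 / 2) ^ k := by
  obtain ⟨z, hz⟩ := near ((Q_dvd_nn hk).mul_left (Q k))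
  have h0 := Qr_pos (k + 1)
  have h1 : ((Q k * nn k : ℕ) : ℝ) = Q (k + 1) / 2 := by
    rw [← two_mul_nn]
    push_cast
    ring
  have h2 : (Q (k + 1) : ℝ) / 2 * rr (k + 1) = 1 / 2 + Q (k + 1) / 2 * rr (k + 2) := by
    rw [rr_succ (k + 1)]
    field_simp
  have hz' : ((Q k * nn k : ℕ) : ℝ) * αr = z + (1 / 2 + Q (k + 1) / 2 * rr (k + 2)) := by
    rw [hz, h1, h2]
  rw [ex_of_eq hz', AddCircle.coe_add, ex_add, ex_half]
  have h3 := norm_ex_coe_le (Q (k + 1) / 2 * rr (k + 2))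
  have h4 : -1 * ex ((Q (k + 1) / 2 * rr (k + 2) : ℝ) : TT) + 1 =
    -(ex ((Q (k + 1) / 2 * rr (k + 2) : ℝ) : TT) - 1) := by ring
  rw [h4, norm_neg]
  refine h3.trans ?_
  have h5 := rr_le (k + 2)
  have h6 := rr_pos (k + 2)
  rw [abs_of_nonneg (by positivity)]
  have h7 : (Q (k + 1) : ℝ) / 2 * rr (k + 2) ≤ (1 / 2) ^ k := by
    calc (Q (k + 1) : ℝ) / 2 * rr (k + 2) ≤ (Q (k + 1) : ℝ) / 2 * (2 / Q (k + 2)) := by gcongr
      _ = Q (k + 1) / Q (k + 2) := by ring
      _ ≤ (1 / 2) ^ k := by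
        have h8 : 2 ^ k * Q (k + 1) ≤ Q (k + 2) := by
          rw [Q_succ (k + 1)]
          calc 2 ^ k * Q (k + 1) ≤ Q (k + 1) * Q (k + 1) := by
                apply Nat.mul_le_mul_right
                exact (Nat.pow_le_pow_right (by norm_num) (by omega)).trans (two_pow_le (k + 1))
            _ = Q (k + 1) ^ 2 := by ring
            _ ≤ _ := Nat.pow_le_pow_right (Q_pos _) (by omega)
        have h9 : ((2 : ℝ) ^ k * Q (k + 1)) ≤ Q (k + 2) := by exact_mod_cast h8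
        have h10 := Qr_pos (k + 2)
        rw [one_div_pow, div_le_div_iff₀ (by positivity) (by positivity)]
        linarith
  gcongr

theorem tendsto_nn : Tendsto (fun k => nn k • α) atTop (𝓝 0) := by
  have h1 : ∀ᶠ k in atTop, nn k • α = ((nn k * rr (k + 1) : ℝ) : TT) := by
    filter_upwards [eventually_ge_atTop 1] with k hk
    obtain ⟨z, hz⟩ := near (Q_dvd_nn hk)
    rw [nsmul_α, hz, AddCircle.coe_add]
    have : ((z : ℝ) : TT) = 0 := by
      rw [AddCircle.coe_eq_zero_iff]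
      exact ⟨z, by simp⟩
    rw [this, zero_add]
  have h2 : Tendsto (fun k => (nn k * rr (k + 1) : ℝ)) atTop (𝓝 0) := by
    have h3 : Tendsto (fun k : ℕ => (1 / 2 : ℝ) ^ k) atTop (𝓝 0) :=
      tendsto_pow_atTop_nhds_zero_of_lt_one (by norm_num) (by norm_num)
    apply squeeze_zero (fun k => ?_) (fun k => ?_) h3
    · have := rr_pos (k + 1)
      positivity
    · have h4 := rr_le (k + 1)
      have h5 := Qr_pos k
      have h6 : (nn k : ℝ) / Q (k + 1) = 1 / (2 * Q k) := by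
        rw [← two_mul_nn k]
        have h0 : (nn k : ℝ) ≠ 0 := by
          have : 0 < nn k := by unfold nn; positivity
          exact_mod_cast this.ne'
        push_cast
        field_simp
      calc (nn k : ℝ) * rr (k + 1) ≤ nn k * (2 / Q (k + 1)) := by gcongr
        _ = 2 * (nn k / Q (k + 1)) := by ring
        _ = 1 / Q k := by rw [h6]; field_simp
        _ ≤ _ := inv_Q_le k
  have h3 : Tendsto (fun k => ((nn k * rr (k + 1) : ℝ) : TT)) atTop (𝓝 ((0 : ℝ) : TT)) :=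
    ((AddCircle.continuous_mk' 1).tendsto _).comp h2
  rw [AddCircle.coe_zero] at h3
  exact h3.congr' (h1.mono fun k hk => hk.symm)

theorem addOrderOf_α : addOrderOf α = 0 := by
  rw [addOrderOf_eq_zero_iff']
  intro N hN h
  rw [nsmul_α, AddCircle.coe_eq_zero_iff] at h
  obtain ⟨m, hm⟩ := h
  rw [zsmul_eq_mul, mul_one] at hm
  obtain ⟨k, hk⟩ : ∃ k, 2 * N < Q k ^ (k + 1) := by
    refine ⟨2 * N, ?_⟩
    calc 2 * N < 2 ^ (2 * N) := Nat.lt_two_pow_self
      _ ≤ 2 ^ (2 * N + 1) := Nat.pow_le_pow_right (by norm_num) (by omega)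
      _ ≤ Q (2 * N) := two_pow_le _
      _ = Q (2 * N) ^ 1 := (pow_one _).symm
      _ ≤ _ := Nat.pow_le_pow_right (Q_pos _) (by omega)
  obtain ⟨z, hz⟩ := near (dvd_refl (Q k))
  have h1 : ((N * (Q k * rr (k + 1)) : ℝ)) = ((Q k * m - N * z : ℤ) : ℝ) := by
    push_cast
    rw [hm]
    linear_combination (-(N : ℝ)) * hz
  have h2 := rr_pos (k + 1)
  have h3 := rr_le (k + 1)
  have h4 := Qr_pos k
  have hN' : (0 : ℝ) < N := by exact_mod_cast hN
  have h5 : (0 : ℝ) < N * (Q k * rr (k + 1)) := by positivity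
  have h6 : (N : ℝ) * (Q k * rr (k + 1)) < 1 := by
    have h7 : (Q k : ℝ) * rr (k + 1) ≤ 2 / Q k ^ (k + 1) := by
      calc (Q k : ℝ) * rr (k + 1) ≤ Q k * (2 / Q (k + 1)) := by gcongr
        _ = _ := by
          rw [Q_succ]
          push_cast
          rw [pow_succ (Q k : ℝ) (k + 1)]
          field_simp
    have h8 : (2 * N : ℝ) < Q k ^ (k + 1) := by exact_mod_cast hk
    calc (N : ℝ) * (Q k * rr (k + 1)) ≤ N * (2 / Q k ^ (k + 1)) := by gcongr
      _ = 2 * N / Q k ^ (k + 1) := by ring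
      _ < 1 := by rw [div_lt_one (by positivity)]; exact h8
  rw [h1] at h5 h6
  have h7 : (0 : ℤ) < Q k * m - N * z := by exact_mod_cast h5
  have h8 : (Q k * m - N * z : ℤ) < 1 := by exact_mod_cast h6
  omega

end Pool.Agent.X219.SE
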