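import Pool.Agent.X219.SE.Num
import Pool.Agent.X219.TC.Pair

/-!
The cocycles.
-/

set_option autoImplicit false

open Filter Topology

namespace Pool.Agent.X219.SE

open Pool.Agent.X219.TC (amp abs_amp amp_lip continuous_amp)

/-- the cosines -/
noncomputable def C (j : ℕ) (x : TT) : ℝ := (ex (Q j • x)).re

/-- the coefficients -/
noncomputable def cf (s : ℕ → ℝ) (j : ℕ) : ℝ := if Even j then amp (s (j / 2)) else 1 / 2

theorem abs_cf (s : ℕ → ℝ) (j : ℕ) : |cf s j| ≤ 1 := by
  unfold cf
  split_ifs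
  · exact abs_amp _
  · rw [abs_of_pos (by norm_num)]
    norm_num

theorem continuous_cf (j : ℕ) : Continuous fun s : ℕ → ℝ => cf s j := by
  unfold cf
  split_ifs
  · exact continuous_amp.comp (continuous_apply _)
  · exact continuous_const

/-- the distance -/
noncomputable def Wb (j : ℕ) (β : TT) : ℝ := ‖ex (Q j • β) - 1‖

theorem Wb_nsmul (j n : ℕ) : Wb j (n • α) = W (Q j * n) := by
  unfold Wb W
  rw [mul_nsmul']

theorem C_add (j : ℕ) (x β : TT) :
    C j (x + β) - C j x = (ex (Q j • x) * (ex (Q j • β) - 1)).re := by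
  unfold C
  rw [nsmul_add, ex_add, mul_sub, mul_one, Complex.sub_re]

theorem abs_C_sub (j : ℕ) (x β : TT) : |C j (x + β) - C j x| ≤ Wb j β := by
  rw [C_add]
  refine (Complex.abs_re_le_norm _).trans ?_
  rw [norm_mul, norm_ex, one_mul]
  rfl

theorem abs_C (j : ℕ) (x : TT) : |C j x| ≤ 1 := by
  refine (Complex.abs_re_le_norm _).trans ?_
  rw [norm_ex]

theorem continuous_C (j : ℕ) : Continuous (C j) :=
  Complex.continuous_re.comp (continuous_ex.comp (continuous_nsmul (Q j)))

theorem abs_C_add (j : ℕ) (x β : TT) : |C j (x + β) + C j x| ≤ ‖ex (Q j • β) + 1‖ := by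
  have : C j (x + β) + C j x = (ex (Q j • x) * (ex (Q j • β) + 1)).re := by
    unfold C
    rw [nsmul_add, ex_add, mul_add, mul_one, Complex.add_re]
  rw [this]
  refine (Complex.abs_re_le_norm _).trans ?_
  rw [norm_mul, norm_ex, one_mul]

/-- the good translations -/
def Sm (β : TT) : Prop := Summable fun j => Wb j β

theorem Wb_add (j : ℕ) (β β' : TT) : Wb j (β + β') ≤ Wb j β + Wb j β' := by
  unfold Wb
  rw [nsmul_add, ex_add]
  have : ex (Q j • β) * ex (Q j • β') - 1 =
    ex (Q j • β') * (ex (Q j • β) - 1) + (ex (Q j • β') - 1) := by ring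
  rw [this]
  refine (norm_add_le _ _).trans ?_
  rw [norm_mul, norm_ex, one_mul]

theorem Wb_nonneg (j : ℕ) (β : TT) : 0 ≤ Wb j β := norm_nonneg _

theorem Sm_add {β β' : TT} (h : Sm β) (h' : Sm β') : Sm (β + β') :=
  Summable.of_nonneg_of_le (fun _ => Wb_nonneg _ _) (fun j => Wb_add j β β') (h.add h')

theorem Sm_α : Sm α := by
  have h := summable_W 0
  have h2 : ∀ j, W (Q j) * (Q j : ℝ) ^ 0 = Wb j α := by
    intro j
    have := Wb_nsmul j 1
    rw [one_nsmul, mul_one] at this
    rw [this, pow_zero, mul_one]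
  exact h.congr h2

theorem Sm_zero : Sm 0 := by
  have : ∀ j, Wb j 0 = 0 := by
    intro j
    unfold Wb
    rw [nsmul_zero, ex_zero, sub_self, norm_zero]
  unfold Sm
  simp only [this]
  exact summable_zero

theorem Sm_nsmul (n : ℕ) : Sm (n • α) := by
  induction n with
  | zero => rw [zero_nsmul]; exact Sm_zero
  | succ n ih => rw [succ_nsmul]; exact Sm_add ih Sm_α

/-- the cocycle -/
noncomputable def S (s : ℕ → ℝ) (β x : TT) : ℝ := ∑' j, cf s j * (C j (x + β) - C j x)

theorem term_le' (s : ℕ → ℝ) (j : ℕ) (x β : TT) :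
    ‖cf s j * (C j (x + β) - C j x)‖ ≤ Wb j β := by
  rw [norm_mul]
  calc ‖cf s j‖ * ‖C j (x + β) - C j x‖ ≤ 1 * Wb j β :=
        mul_le_mul (abs_cf s j) (abs_C_sub j x β) (norm_nonneg _) zero_le_one
    _ = _ := one_mul _

theorem summable_S (s : ℕ → ℝ) {β : TT} (h : Sm β) (x : TT) :
    Summable fun j => cf s j * (C j (x + β) - C j x) :=
  Summable.of_norm_bounded h fun j => term_le' s j x β

theorem S_cocycle (s : ℕ → ℝ) {β β' : TT} (h : Sm β) (h' : Sm β') (x : TT) :
    S s (β + β') x = S s β (x + β') + S s β' x := by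
  unfold S
  rw [← (summable_S s h (x + β')).tsum_add (summable_S s h' x)]
  congr 1
  funext j
  have : x + (β + β') = x + β' + β := by abel
  rw [this]
  ring

theorem continuous_S (s : ℕ → ℝ) {β : TT} (h : Sm β) : Continuous (S s β) := by
  apply continuous_tsum (u := fun j => Wb j β) _ h (fun j x => term_le' s j x β)
  intro j
  exact continuous_const.mul (((continuous_C j).comp (continuous_id.add continuous_const)).sub
    (continuous_C j))

theorem continuous_S_s {β : TT} (h : Sm β) (x : TT) : Continuous fun s : ℕ → ℝ => S s β x := by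
  apply continuous_tsum (u := fun j => Wb j β) _ h (fun j s => term_le' s j x β)
  intro j
  exact (continuous_cf j).mul continuous_const

theorem S_zero (s : ℕ → ℝ) (x : TT) : S s 0 x = 0 := by
  unfold S
  simp

/-- the error -/
noncomputable def err (k : ℕ) : ℝ := 10 * Real.pi * (1 / 2) ^ k

theorem tendsto_err : Tendsto err atTop (𝓝 0) := by
  unfold err
  have h3 : Tendsto (fun k : ℕ => (1 / 2 : ℝ) ^ k) atTop (𝓝 0) :=
    tendsto_pow_atTop_nhds_zero_of_lt_one (by norm_num) (by norm_num)
  have := h3.const_mul (10 * Real.pi)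
  rwa [mul_zero] at this

theorem approx (s : ℕ → ℝ) {k : ℕ} (hk : 1 ≤ k) (x : TT) :
    |S s (nn k • α) x + 2 * cf s k * C k x| ≤ err k := by
  have hs := summable_S s (Sm_nsmul (nn k)) x
  have h1 : S s (nn k • α) x = cf s k * (C k (x + nn k • α) - C k x) +
      ∑' j, ite (j = k) 0 (cf s j * (C j (x + nn k • α) - C j x)) := by
    unfold S
    exact hs.tsum_eq_add_tsum_ite k
  have hg : Summable fun j : ℕ => 4 * Real.pi * ((1 / 2 : ℝ) ^ k * (1 / 2) ^ j) :=
    ((summable_geometric_of_lt_one (by norm_num) (by norm_num)).mul_left _).mul_left _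
  have h2 : |∑' j, ite (j = k) 0 (cf s j * (C j (x + nn k • α) - C j x))| ≤
      8 * Real.pi * (1 / 2) ^ k := by
    have h3 : ‖∑' j, ite (j = k) 0 (cf s j * (C j (x + nn k • α) - C j x))‖ ≤
        ∑' j : ℕ, 4 * Real.pi * ((1 / 2 : ℝ) ^ k * (1 / 2) ^ j) := by
      apply tsum_of_norm_bounded hg.hasSum
      intro j
      by_cases hj : j = k
      · rw [if_pos hj, norm_zero]
        positivity
      · rw [if_neg hj]
        refine (term_le' s j x _).trans ?_
        rw [Wb_nsmul]
        exact W_nn hk hj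
    rw [tsum_mul_left, tsum_mul_left, tsum_geometric_two, Real.norm_eq_abs] at h3
    calc _ ≤ _ := h3
      _ = _ := by ring
  have h3 : |cf s k * (C k (x + nn k • α) + C k x)| ≤ 2 * Real.pi * (1 / 2) ^ k := by
    rw [abs_mul]
    have h4 : |C k (x + nn k • α) + C k x| ≤ 2 * Real.pi * (1 / 2) ^ k := by
      refine (abs_C_add k x _).trans ?_
      have := half_time hk
      rwa [mul_nsmul'] at this
    calc |cf s k| * |C k (x + nn k • α) + C k x| ≤ 1 * (2 * Real.pi * (1 / 2) ^ k) :=
          mul_le_mul (abs_cf s k) h4 (abs_nonneg _) zero_le_one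
      _ = _ := one_mul _
  have h4 : S s (nn k • α) x + 2 * cf s k * C k x = cf s k * (C k (x + nn k • α) + C k x) +
      ∑' j, ite (j = k) 0 (cf s j * (C j (x + nn k • α) - C j x)) := by
    rw [h1]
    ring
  rw [h4]
  refine (abs_add_le _ _).trans ?_
  unfold err
  linarith

/-! ### smoothness -/

theorem contDiff_expsum (n : ℕ) : ∀ (A : ℕ → ℂ) (b : ℕ → ℝ),
    (∀ p : ℕ, Summable fun j => ‖A j‖ * |b j| ^ p) →
    ContDiff ℝ n (fun x : ℝ => ∑' j, A j * Complex.exp (Complex.I * ((b j * x : ℝ) : ℂ))) := by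
  induction n with
  | zero =>
    intro A b h
    rw [Nat.cast_zero, contDiff_zero]
    have h0 := h 0
    simp only [pow_zero, mul_one] at h0
    apply continuous_tsum (u := fun j => ‖A j‖) _ h0
    · intro j x
      rw [norm_mul, mul_comm Complex.I, Complex.norm_exp_ofReal_mul_I, mul_one]
    · intro j
      fun_prop
  | succ n ih =>
    intro A b h
    have h0 := h 0
    simp only [pow_zero, mul_one] at h0
    have h1 := h 1
    simp only [pow_one] at h1
    have hd : ∀ y : ℝ, HasDerivAt
        (fun x : ℝ => ∑' j, A j * Complex.exp (Complex.I * ((b j * x : ℝ) : ℂ)))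
        (∑' j, (A j * (Complex.I * b j)) * Complex.exp (Complex.I * ((b j * y : ℝ) : ℂ))) y := by
      intro y
      refine hasDerivAt_tsum (𝕜 := ℝ) (u := fun j => ‖A j‖ * |b j|)
        (g := fun j (x : ℝ) => A j * Complex.exp (Complex.I * ((b j * x : ℝ) : ℂ)))
        (g' := fun j (y : ℝ) =>
          (A j * (Complex.I * b j)) * Complex.exp (Complex.I * ((b j * y : ℝ) : ℂ)))
        (y₀ := 0) h1 ?_ ?_ ?_ y
      · intro j y
        have e1 : HasDerivAt (fun x : ℝ => (b j * x : ℝ)) (b j) y := by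
          simpa using (hasDerivAt_id y).const_mul (b j)
        have e2 := (e1.ofReal_comp.const_mul Complex.I).cexp.const_mul (A j)
        convert! e2 using 1
        ring
      · intro j y
        rw [norm_mul, norm_mul, mul_comm Complex.I ((b j * y : ℝ) : ℂ),
          Complex.norm_exp_ofReal_mul_I, mul_one, norm_mul, Complex.norm_I, one_mul,
          Complex.norm_real, Real.norm_eq_abs]
      · apply Summable.of_norm_bounded h0
        intro j
        rw [norm_mul, mul_comm Complex.I, Complex.norm_exp_ofReal_mul_I, mul_one]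
    rw [Nat.cast_succ, contDiff_succ_iff_deriv]
    refine ⟨fun y => (hd y).differentiableAt, by simp, ?_⟩
    have e3 : deriv (fun x : ℝ => ∑' j, A j * Complex.exp (Complex.I * ((b j * x : ℝ) : ℂ))) =
        fun y => ∑' j, (A j * (Complex.I * b j)) * Complex.exp (Complex.I * ((b j * y : ℝ) : ℂ)) :=
      funext fun y => (hd y).deriv
    rw [e3]
    apply ih
    intro p
    refine (h (p + 1)).congr fun j => ?_
    rw [norm_mul, norm_mul, Complex.norm_I, one_mul, Complex.norm_real, Real.norm_eq_abs,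
      pow_succ]
    ring

theorem contDiff_lift (s : ℕ → ℝ) : ContDiff ℝ (⊤ : ℕ∞) (fun x : ℝ => S s α (x : TT)) := by
  have hsum : ∀ p : ℕ, Summable fun j =>
      ‖((cf s j : ℝ) : ℂ) * (ex (Q j • α) - 1)‖ * |2 * Real.pi * Q j| ^ p := by
    intro p
    have h1 := (summable_W p).mul_left ((2 * Real.pi) ^ p)
    refine Summable.of_nonneg_of_le (fun j => by positivity) (fun j => ?_) h1
    have h2 : ‖((cf s j : ℝ) : ℂ) * (ex (Q j • α) - 1)‖ ≤ W (Q j) := by
      rw [norm_mul, Complex.norm_real]
      calc ‖cf s j‖ * ‖ex (Q j • α) - 1‖ ≤ 1 * ‖ex (Q j • α) - 1‖ :=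
            mul_le_mul_of_nonneg_right (abs_cf s j) (norm_nonneg _)
        _ = _ := one_mul _
    have h3 : |2 * Real.pi * Q j| ^ p = (2 * Real.pi) ^ p * (Q j : ℝ) ^ p := by
      rw [abs_of_nonneg (by positivity), mul_pow]
    rw [h3]
    calc ‖((cf s j : ℝ) : ℂ) * (ex (Q j • α) - 1)‖ * ((2 * Real.pi) ^ p * (Q j : ℝ) ^ p)
        ≤ W (Q j) * ((2 * Real.pi) ^ p * (Q j : ℝ) ^ p) := by gcongr
      _ = _ := by ring
  have h1 : (fun x : ℝ => S s α (x : TT)) = fun x : ℝ =>
      (∑' j, ((cf s j : ℝ) : ℂ) * (ex (Q j • α) - 1) *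
        Complex.exp (Complex.I * ((2 * Real.pi * Q j * x : ℝ) : ℂ))).re := by
    funext x
    have h0 := hsum 0
    simp only [pow_zero, mul_one] at h0
    rw [Complex.re_tsum]
    · unfold S
      congr 1
      funext j
      rw [C_add, mul_assoc, Complex.re_ofReal_mul, mul_comm (ex (Q j • α) - 1)]
      congr 4
      rw [← AddCircle.coe_nsmul, ex_coe, nsmul_eq_mul]
      congr 3
      ring
    · apply Summable.of_norm_bounded h0
      intro j
      rw [norm_mul _ (Complex.exp _), mul_comm Complex.I, Complex.norm_exp_ofReal_mul_I, mul_one]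
  rw [h1]
  have h2 : ContDiff ℝ (⊤ : ℕ∞) fun x : ℝ => ∑' j, ((cf s j : ℝ) : ℂ) * (ex (Q j • α) - 1) *
        Complex.exp (Complex.I * ((2 * Real.pi * Q j * x : ℝ) : ℂ)) := by
    rw [contDiff_infty]
    intro n
    exact contDiff_expsum n _ (fun j => 2 * Real.pi * Q j) hsum
  exact Complex.reCLM.contDiff.comp h2

/-! ### the transfer function -/

/-- the transfer function between two cocycles -/
noncomputable def hh (s t : ℕ → ℝ) (x : TT) : ℝ := ∑' j, (cf t j - cf s j) * C j x

theorem summable_cf {s t : ℕ → ℝ} (h : Summable fun n => |s n - t n|) :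
    Summable fun j => |cf t j - cf s j| := by
  have h1 : Summable fun i : ℕ => |cf t (2 * i) - cf s (2 * i)| := by
    refine Summable.of_nonneg_of_le (fun _ => abs_nonneg _) (fun i => ?_) h
    unfold cf
    rw [if_pos (even_two_mul i), if_pos (even_two_mul i), Nat.mul_div_cancel_left i (by norm_num),
      abs_sub_comm]
    exact amp_lip _ _
  have h2 : Function.Injective fun i : ℕ => 2 * i := fun a b hab => by
    have : 2 * a = 2 * b := hab
    omega
  refine (h2.summable_iff (f := fun j => |cf t j - cf s j|) ?_).1 h1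
  intro j hj
  have : ¬ Even j := by
    rintro ⟨i, hi⟩
    exact hj ⟨i, by show 2 * i = j; omega⟩
  unfold cf
  rw [if_neg this, if_neg this, sub_self, abs_zero]

theorem term_h (s t : ℕ → ℝ) (j : ℕ) (x : TT) :
    ‖(cf t j - cf s j) * C j x‖ ≤ |cf t j - cf s j| := by
  rw [norm_mul]
  calc ‖cf t j - cf s j‖ * ‖C j x‖ ≤ |cf t j - cf s j| * 1 :=
        mul_le_mul le_rfl (abs_C j x) (norm_nonneg _) (abs_nonneg _)
    _ = _ := mul_one _

theorem continuous_hh {s t : ℕ → ℝ} (h : Summable fun n => |s n - t n|) :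
    Continuous (hh s t) := by
  apply continuous_tsum (u := fun j => |cf t j - cf s j|) _ (summable_cf h) (term_h s t)
  intro j
  exact continuous_const.mul (continuous_C j)

theorem hh_rel {s t : ℕ → ℝ} (h : Summable fun n => |s n - t n|) (x : TT) :
    hh s t (x + α) - hh s t x = S t α x - S s α x := by
  have h1 : ∀ x, Summable fun j => (cf t j - cf s j) * C j x := fun x =>
    Summable.of_norm_bounded (summable_cf h) fun j => term_h s t j x
  unfold hh S
  rw [← (h1 (x + α)).tsum_sub (h1 x),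
    ← (summable_S t Sm_α x).tsum_sub (summable_S s Sm_α x)]
  congr 1
  funext j
  ring

end Pool.Agent.X219.SE
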