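import Pool.Agent.X219.SE.Mfd

/-!
The skew products.
-/

set_option autoImplicit false

open Filter Topology Set MeasureTheory Function
open scoped Manifold ContDiff

namespace Pool.Agent.X219.SE

attribute [local instance] chs isManifold_MM

theorem prob_TT : IsProbabilityMeasure (volume : Measure TT) := ⟨UnitAddCircle.measure_univ⟩

attribute [local instance] prob_TT

/-- skew translations -/
noncomputable def sk (β : TT) (h : TT → ℝ) (p : MM) : MM := (p.1 + β, p.2 + (h p.1 : TT))

theorem continuous_sk (β : TT) {h : TT → ℝ} (hc : Continuous h) : Continuous (sk β h) :=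
  (continuous_fst.add continuous_const).prodMk
    (continuous_snd.add ((AddCircle.continuous_mk' 1).comp (hc.comp continuous_fst)))

theorem mp_sk (β : TT) {h : TT → ℝ} (hc : Continuous h) :
    MeasurePreserving (sk β h) volume volume := by
  have h1 := measurePreserving_add_right (volume : Measure TT) β
  exact h1.skew_product (μc := (volume : Measure TT)) (μd := (volume : Measure TT))
    (g := fun x y => y + (h x : TT))
    (measurable_snd.add ((AddCircle.continuous_mk' 1).comp
      (hc.comp continuous_fst)).measurable)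
    (ae_of_all _ fun x => (measurePreserving_add_right (volume : Measure TT) (h x : TT)).map_eq)

/-- the skew product -/
noncomputable def Tm (s : ℕ → ℝ) : MM → MM := sk α (S s α)

/-- its powers -/
noncomputable def Tn (s : ℕ → ℝ) (n : ℕ) : MM → MM := sk (n • α) (S s (n • α))

theorem Tm_iterate (s : ℕ → ℝ) (n : ℕ) (p : MM) : (Tm s)^[n] p = Tn s n p := by
  induction n with
  | zero =>
    unfold Tn sk
    rw [zero_nsmul, S_zero, add_zero]
    show p = (p.1, p.2 + ((0 : ℝ) : TT))
    rw [AddCircle.coe_zero, add_zero]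
  | succ n ih =>
    rw [iterate_succ_apply', ih]
    unfold Tm Tn sk
    have h1 : (n + 1) • α = α + n • α := by rw [succ_nsmul, add_comm]
    rw [h1, S_cocycle s Sm_α (Sm_nsmul n)]
    refine Prod.ext ?_ ?_
    · show p.1 + n • α + α = p.1 + (α + n • α)
      abel
    · show p.2 + (S s (n • α) p.1 : TT) + (S s α (p.1 + n • α) : TT) =
        p.2 + ((S s α (p.1 + n • α) + S s (n • α) p.1 : ℝ) : TT)
      rw [AddCircle.coe_add]
      abel

theorem continuous_Tm (s : ℕ → ℝ) : Continuous (Tm s) := continuous_sk _ (continuous_S s Sm_α)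

theorem continuous_Tn (s : ℕ → ℝ) (n : ℕ) : Continuous (Tn s n) :=
  continuous_sk _ (continuous_S s (Sm_nsmul n))

theorem mp_Tm (s : ℕ → ℝ) : MeasurePreserving (Tm s) volume volume :=
  mp_sk _ (continuous_S s Sm_α)

theorem mp_Tn (s : ℕ → ℝ) (n : ℕ) : MeasurePreserving (Tn s n) volume volume :=
  mp_sk _ (continuous_S s (Sm_nsmul n))

/-- the inverse -/
noncomputable def Tm' (s : ℕ → ℝ) (p : MM) : MM := (p.1 - α, p.2 - (S s α (p.1 - α) : TT))

theorem continuous_Tm' (s : ℕ → ℝ) : Continuous (Tm' s) :=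
  (continuous_fst.sub continuous_const).prodMk
    (continuous_snd.sub ((AddCircle.continuous_mk' 1).comp
      ((continuous_S s Sm_α).comp (continuous_fst.sub continuous_const))))

/-- the diffeomorphism -/
noncomputable def Td (s : ℕ → ℝ) : Diffeomorph (𝓡 2) (𝓡 2) MM MM ∞ where
  toFun := Tm s
  invFun := Tm' s
  left_inv p := by
    unfold Tm Tm' sk
    refine Prod.ext ?_ ?_
    · show p.1 + α - α = p.1
      abel
    · show p.2 + (S s α p.1 : TT) - (S s α (p.1 + α - α) : TT) = p.2
      rw [add_sub_cancel_right p.1 α, add_sub_cancel_right]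
  right_inv p := by
    unfold Tm Tm' sk
    refine Prod.ext ?_ ?_
    · show p.1 - α + α = p.1
      abel
    · show p.2 - (S s α (p.1 - α) : TT) + (S s α (p.1 - α) : TT) = p.2
      abel
  contMDiff_toFun := by
    have hF : ContDiff ℝ ∞ fun v : EE =>
        Λ.symm ((Λ v).1 + αr, (Λ v).2 + S s α ((Λ v).1 : TT)) := by
      apply Λ.symm.contDiff.comp
      have h1 : ContDiff ℝ ∞ fun v : EE => (Λ v).1 := contDiff_fst.comp Λ.contDiff
      have h2 : ContDiff ℝ ∞ fun v : EE => (Λ v).2 := contDiff_snd.comp Λ.contDiff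
      exact (h1.add contDiff_const).prodMk (h2.add ((contDiff_lift s).comp h1))
    apply contMDiff_of_lift (continuous_Tm s) hF
    intro v
    unfold pp Tm sk
    rw [ContinuousLinearEquiv.apply_symm_apply]
    refine Prod.ext ?_ ?_
    · show (((Λ v).1 + αr : ℝ) : TT) = _
      rw [AddCircle.coe_add]
      rfl
    · show (((Λ v).2 + S s α ((Λ v).1 : TT) : ℝ) : TT) = _
      rw [AddCircle.coe_add]
  contMDiff_invFun := by
    have hF : ContDiff ℝ ∞ fun v : EE =>
        Λ.symm ((Λ v).1 - αr, (Λ v).2 - S s α (((Λ v).1 - αr : ℝ) : TT)) := by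
      apply Λ.symm.contDiff.comp
      have h1 : ContDiff ℝ ∞ fun v : EE => (Λ v).1 := contDiff_fst.comp Λ.contDiff
      have h2 : ContDiff ℝ ∞ fun v : EE => (Λ v).2 := contDiff_snd.comp Λ.contDiff
      have h3 : ContDiff ℝ ∞ fun v : EE => (Λ v).1 - αr := h1.sub contDiff_const
      exact h3.prodMk (h2.sub ((contDiff_lift s).comp h3))
    apply contMDiff_of_lift (continuous_Tm' s) hF
    intro v
    unfold pp Tm'
    rw [ContinuousLinearEquiv.apply_symm_apply]
    refine Prod.ext ?_ ?_
    · show (((Λ v).1 - αr : ℝ) : TT) = _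
      rw [AddCircle.coe_sub]
      rfl
    · show (((Λ v).2 - S s α (((Λ v).1 - αr : ℝ) : TT) : ℝ) : TT) = _
      rw [AddCircle.coe_sub, AddCircle.coe_sub]
      rfl

theorem Td_apply (s : ℕ → ℝ) (p : MM) : Td s p = Tm s p := rfl

/-! ### isomorphism of close parameters -/

theorem iso_close {s t : ℕ → ℝ} (h : Summable fun n => |s n - t n|) :
    ∃ φ ψ : MM → MM, MeasurePreserving φ volume volume ∧ MeasurePreserving ψ volume volume ∧
      (∀ p, ψ (φ p) = p) ∧ (∀ p, φ (ψ p) = p) ∧ ∀ p, φ (Tm s p) = Tm t (φ p) := by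
  have hc := continuous_hh h
  refine ⟨sk 0 (hh s t), sk 0 (fun x => -hh s t x), mp_sk _ hc, mp_sk _ hc.neg, ?_, ?_, ?_⟩
  · intro p
    unfold sk
    refine Prod.ext ?_ ?_
    · show p.1 + 0 + 0 = p.1
      abel
    · show p.2 + (hh s t p.1 : TT) + ((-hh s t (p.1 + 0) : ℝ) : TT) = p.2
      rw [add_zero p.1, AddCircle.coe_neg]
      abel
  · intro p
    unfold sk
    refine Prod.ext ?_ ?_
    · show p.1 + 0 + 0 = p.1
      abel
    · show p.2 + ((-hh s t p.1 : ℝ) : TT) + (hh s t (p.1 + 0) : TT) = p.2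
      rw [add_zero p.1, AddCircle.coe_neg]
      abel
  · intro p
    unfold Tm sk
    refine Prod.ext ?_ ?_
    · show p.1 + α + 0 = p.1 + 0 + α
      abel
    · show p.2 + (S s α p.1 : TT) + (hh s t (p.1 + α) : TT) =
        p.2 + (hh s t p.1 : TT) + (S t α (p.1 + 0) : TT)
      rw [add_zero p.1, add_assoc, add_assoc, ← AddCircle.coe_add, ← AddCircle.coe_add]
      have := hh_rel h p.1
      congr 2
      linarith

end Pool.Agent.X219.SE
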